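import Pool.Agent.Helper85.REC.Stmts14
import Pool.Agent.Helper72.REC.PPB

/-!
# REC, PPG: pairs of potentially abelian families
(adapted from Helper72/REC/PPB.lean)
-/

set_option autoImplicit false
set_option maxHeartbeats 800000

open Polynomial

namespace REC

open MU
open Pool.Agent.Helper72.REC.Etl Pool.Agent.Helper72.REC.Ppb

namespace PPGh

/-- complete reducibility in terms of submodules -/
theorem ssx_of {G K : Type} [Group G] [Field K] {n : ℕ} (r : G →* Matrix (Fin n) (Fin n) K)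
    (h : IsSS r) : SSx (fun g => r g) := by
  intro W hW
  set b := Module.finBasis K W with hb
  set f : (Fin (Module.finrank K W) → K) →ₗ[K] (Fin n → K) :=
    W.subtype.comp b.equivFun.symm.toLinearMap with hf
  have hfi : Function.Injective f := by
    intro x y hxy
    exact b.equivFun.symm.injective (Subtype.val_injective hxy)
  have hfW : ∀ y, f y ∈ W := fun y => (b.equivFun.symm y).2
  have hWf : ∀ x ∈ W, ∃ y, f y = x := by
    intro x hx
    refine ⟨b.equivFun ⟨x, hx⟩, ?_⟩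
    change ((b.equivFun.symm (b.equivFun ⟨x, hx⟩) : W) : Fin n → K) = x
    rw [LinearEquiv.symm_apply_apply]
  obtain ⟨g, hg⟩ := f.exists_leftInverse_of_injective (LinearMap.ker_eq_bot.mpr hfi)
  have hgf : ∀ y, g (f y) = y := fun y => by
    have := LinearMap.congr_fun hg y
    exact this
  set B := LinearMap.toMatrix' f with hB
  set C := LinearMap.toMatrix' g with hC
  have hBv : ∀ y, B.mulVec y = f y := fun y => LinearMap.toMatrix'_mulVec f y
  have hCv : ∀ y, C.mulVec y = g y := fun y => LinearMap.toMatrix'_mulVec g y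
  have hCB : C * B = 1 := by
    rw [hB, hC, ← LinearMap.toMatrix'_comp, hg, LinearMap.toMatrix'_id]
  have hext : ∀ (a c : ℕ) (X Y : Matrix (Fin a) (Fin c) K), (∀ y, X.mulVec y = Y.mulVec y) →
      X = Y := by
    intro a c X Y hXY
    apply Matrix.toLin'.injective
    exact LinearMap.ext fun y => by
      rw [Matrix.toLin'_apply, Matrix.toLin'_apply, hXY]
  have hrB : ∀ a : G, r a * B = B * (C * r a * B) := by
    intro a
    apply hext
    intro y
    rw [← Matrix.mulVec_mulVec, ← Matrix.mulVec_mulVec, ← Matrix.mulVec_mulVec,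
      ← Matrix.mulVec_mulVec, hBv y]
    obtain ⟨z, hz⟩ := hWf _ (hW a (f y) (hfW y))
    rw [← hz, hCv, hgf, hBv]
  obtain ⟨D, hD1, hD2⟩ := h _ B (fun a => C * r a * B) ⟨⟨C, hCB⟩, hrB⟩
  refine ⟨B * D, fun a => ?_, fun x => ?_, fun x hx => ?_⟩
  · rw [Matrix.mul_assoc, hD2, ← Matrix.mul_assoc, ← hrB, Matrix.mul_assoc]
  · rw [← Matrix.mulVec_mulVec, hBv]
    exact hfW _
  · obtain ⟨y, rfl⟩ := hWf x hx
    rw [← hBv, Matrix.mulVec_mulVec, Matrix.mul_assoc, hD1, Matrix.mul_one]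

section fam

variable {F : Type} [Field F] [NumberField F] {S : Finset ℕ} {n m : ℕ}

theorem isFam2 (B : ∀ (l : ℕ) [Fact l.Prime], Gal F →* Matrix.GeneralLinearGroup (Fin n) ℤ_[l])
    (B' : ∀ (l : ℕ) [Fact l.Prime], Gal F →* Matrix.GeneralLinearGroup (Fin m) ℤ_[l])
    (hB : IsFam S B) (hB' : IsFam S B') :
    IsFam S (fun l [Fact l.Prime] => bh (B l) (B' l)) := by
  refine ⟨fun l _ => ?_, fun p hp hpS 𝔓 hov k σ hk hσ => ?_⟩
  · rw [Units.continuous_iff]
    have hc : Continuous fun g : Gal F =>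
        (bh (B l) (B' l) g : Matrix (Fin (n + m)) (Fin (n + m)) ℤ_[l]) := by
      have h1 : Continuous fun g : Gal F => (B l g : Matrix (Fin n) (Fin n) ℤ_[l]) :=
        Units.continuous_val.comp (hB.1 l)
      have h2 : Continuous fun g : Gal F => (B' l g : Matrix (Fin m) (Fin m) ℤ_[l]) :=
        Units.continuous_val.comp (hB'.1 l)
      exact (h1.matrix_fromBlocks continuous_const continuous_const h2).matrix_submatrix _ _
    refine ⟨hc, ?_⟩
    have h3 : (fun g : Gal F => ((bh (B l) (B' l) g)⁻¹ :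
        Matrix.GeneralLinearGroup (Fin (n + m)) ℤ_[l]).val) =
        fun g : Gal F => (bh (B l) (B' l) g⁻¹ : Matrix (Fin (n + m)) (Fin (n + m)) ℤ_[l]) := by
      funext g
      rw [map_inv]
    change Continuous fun g : Gal F => ((bh (B l) (B' l) g)⁻¹ :
        Matrix.GeneralLinearGroup (Fin (n + m)) ℤ_[l]).val
    rw [h3]
    exact hc.comp continuous_inv
  · obtain ⟨P, hP⟩ := hB.2 p hp hpS 𝔓 hov k σ hk hσ
    obtain ⟨P', hP'⟩ := hB'.2 p hp hpS 𝔓 hov k σ hk hσ
    refine ⟨P * P', fun l _ hl => ?_⟩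
    rw [bh_val, bd_charpoly, hP l hl, hP' l hl, Polynomial.map_mul]

/-- the two statements on an open normal subgroup -/
theorem core2 (hPBR : ST_PBR) (hETL : ST_ETL) (hSSD : ST_SSD)
    (M : ∀ (l : ℕ) [Fact l.Prime], Gal F →* Matrix.GeneralLinearGroup (Fin n) ℤ_[l])
    (M' : ∀ (l : ℕ) [Fact l.Prime], Gal F →* Matrix.GeneralLinearGroup (Fin m) ℤ_[l])
    (hM : IsFam S M) (hM' : IsFam S M') (hss : ∀ (l : ℕ) [Fact l.Prime], IsSS (rat (M l)))
    (hss' : ∀ (l : ℕ) [Fact l.Prime], IsSS (rat (M' l))) (H : Subgroup (Gal F))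
    (hH : IsOpen (H : Set (Gal F)))
    (hc : ∀ (l : ℕ) [Fact l.Prime], ∀ g ∈ H, ∀ g' ∈ H, M l g * M l g' = M l g' * M l g)
    (hc' : ∀ (l : ℕ) [Fact l.Prime], ∀ g ∈ H, ∀ g' ∈ H, M' l g * M' l g' = M' l g' * M' l g) :
    ∃ (U : Subgroup (Gal F)) (c : ℕ), IsOpen (U : Set (Gal F)) ∧ U ≤ H ∧
      ∀ (l : ℕ) [Fact l.Prime], c < l → IsSS ((res (M l)).comp U.subtype) ∧
        ∀ u : Matrix (Fin m) (Fin n) (ZMod l), (∀ a : U, u * res (M l) a = res (M' l) a * u) →
          ∃ x : Matrix (Fin m) (Fin n) ℤ_[l], x.map (PadicInt.toZMod (p := l)) = u ∧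
            ∀ a : U, x * (M l a : Matrix (Fin n) (Fin n) ℤ_[l]) =
              (M' l a : Matrix (Fin m) (Fin m) ℤ_[l]) * x := by
  obtain ⟨U, s, R, c₁, hUn, hUo, hUH, hsU, hR, hRs, hU⟩ := hPBR F S (n + m) _ (isFam2 M M' hM hM')
    (fun l _ => ss_bd hSSD (rat (M l)) (rat (M' l)) _ (fun g => bd_map (algebraMap ℤ_[l] ℚ_[l])
      (M l g : Matrix (Fin n) (Fin n) ℤ_[l]) (M' l g : Matrix (Fin m) (Fin m) ℤ_[l]))
      (hss l) (hss' l)) H hH (by
      intro l _ g hg g' hg'
      apply Units.ext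
      rw [Units.val_mul, Units.val_mul, bh_val, bh_val, ← bd_mul, ← bd_mul, ← Units.val_mul,
        ← Units.val_mul, ← Units.val_mul, ← Units.val_mul, hc l g hg g' hg',
        hc' l g hg g' hg'])
  obtain ⟨c₂, hc₂⟩ := hETL R hR hRs
  refine ⟨U, max c₁ c₂, hUo, hUH, fun l _ hl => ?_⟩
  obtain ⟨hR0, hcm⟩ := hU l ((le_max_left _ _).trans_lt hl)
  obtain ⟨hRs0, hRs1⟩ := bd_aeval R _ _ hR0
  have hl2 := (le_max_right c₁ c₂).trans_lt hl
  -- endomorphisms and homomorphisms which commute with `s`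
  have key : ∀ (a : Matrix (Fin n) (Fin n) ℤ_[l]) (b : Matrix (Fin m) (Fin n) ℤ_[l]),
      a * (M l s : Matrix (Fin n) (Fin n) ℤ_[l]) =
        (M l s : Matrix (Fin n) (Fin n) ℤ_[l]) * a →
      b * (M l s : Matrix (Fin n) (Fin n) ℤ_[l]) =
        (M' l s : Matrix (Fin m) (Fin m) ℤ_[l]) * b → ∀ g ∈ U,
      a * (M l g : Matrix (Fin n) (Fin n) ℤ_[l]) =
        (M l g : Matrix (Fin n) (Fin n) ℤ_[l]) * a ∧
      b * (M l g : Matrix (Fin n) (Fin n) ℤ_[l]) =
        (M' l g : Matrix (Fin m) (Fin m) ℤ_[l]) * b := by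
    intro a b ha hb g hg
    have h1 := hcm _ ((comm_iff a _ b _).mpr ⟨ha, hb⟩) g hg
    exact (comm_iff a _ b _).mp h1
  constructor
  · intro k B A hBA
    obtain ⟨hC, hB⟩ := hBA
    have hBs := hB ⟨s, hsU⟩
    obtain ⟨D, hD1, hD2⟩ := (hc₂ l hl2 n n _ _ hRs0 hRs0).2 k B (A ⟨s, hsU⟩) hC hBs
    refine ⟨D, hD1, ?_⟩
    have hcomm : B * D * res (M l) s = res (M l) s * (B * D) := by
      have e1 : res (M l) s * B = B * A ⟨s, hsU⟩ := hBs
      have e2 : D * res (M l) s = A ⟨s, hsU⟩ * D := hD2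
      rw [Matrix.mul_assoc, e2, ← Matrix.mul_assoc, ← Matrix.mul_assoc, e1]
    obtain ⟨x, hx1, hx2⟩ := (hc₂ l hl2 n n _ _ hRs0 hRs0).1 (B * D) hcomm
    intro g
    have h3 := (key x 0 hx2 (by rw [Matrix.zero_mul, Matrix.mul_zero]) g.1 g.2).1
    have h4 := congrArg (fun X : Matrix (Fin n) (Fin n) ℤ_[l] => X.map
      (PadicInt.toZMod (p := l))) h3
    simp only [Matrix.map_mul] at h4
    rw [hx1] at h4
    have h5 : B * D * res (M l) g.1 = res (M l) g.1 * (B * D) := h4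
    have h6 : res (M l) g.1 * B = B * A g := hB g
    change D * res (M l) g.1 = A g * D
    calc D * res (M l) g.1 = D * B * D * res (M l) g.1 := by rw [hD1, Matrix.one_mul]
      _ = D * (B * D * res (M l) g.1) := by simp only [Matrix.mul_assoc]
      _ = D * (res (M l) g.1 * B * D) := by rw [h5, Matrix.mul_assoc]
      _ = D * B * (A g * D) := by rw [h6]; simp only [Matrix.mul_assoc]
      _ = A g * D := by rw [hD1, Matrix.one_mul]
  · intro u hu
    obtain ⟨x, hx1, hx2⟩ := (hc₂ l hl2 n m _ _ hRs0 hRs1).1 u (hu ⟨s, hsU⟩)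
    exact ⟨x, hx1, fun a => (key 0 x (by rw [Matrix.zero_mul, Matrix.mul_zero]) hx2 a.1 a.2).2⟩

end fam

end PPGh

open PPGh

theorem st_PPG (hPBR : ST_PBR) (hETL : ST_ETL) (hAVS : ST_AVS) (hAVL : ST_AVL)
    (hSSD : ST_SSD) : ST_PPG := by
  intro F _ _ S n n' M M' hM hM' hss hss' H hH hc hc'
  obtain ⟨U, c, hU, hUH, hc⟩ := core2 hPBR hETL hSSD M M' hM hM' hss hss' H hH hc hc'
  have hi := index_ne_zero hU
  have hr : (Subgroup.inclusion hUH).range.index ∣ U.index := by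
    rw [Subgroup.inclusion_range]
    exact Subgroup.relIndex_dvd_index_of_le hUH
  have hdv : ∀ (l : ℕ) [Fact l.Prime], U.index < l →
      ¬ l ∣ (Subgroup.inclusion hUH).range.index := by
    intro l _ hl hd
    have := Nat.le_of_dvd (Nat.pos_of_ne_zero hi) (hd.trans hr)
    omega
  refine ⟨max c U.index, fun l _ hl => ⟨?_, fun u hu => ?_⟩⟩
  · have h1 : IsSS ((res (M l)).comp H.subtype) := by
      refine hAVS H U (ZMod l) (Subgroup.inclusion hUH) n ((res (M l)).comp H.subtype) ?_ ?_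
      · rw [Ne, ZMod.natCast_eq_zero_iff]
        exact hdv l ((le_max_right _ _).trans_lt hl)
      · exact (hc l ((le_max_left _ _).trans_lt hl)).1
    exact ssx_of _ h1
  · exact hAVL H U (Subgroup.inclusion hUH) n n' l ((M l).comp H.subtype)
      ((M' l).comp H.subtype) (hdv l ((le_max_right _ _).trans_lt hl))
      (fun u hu => (hc l ((le_max_left _ _).trans_lt hl)).2 u hu) u hu

end REC
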