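import Mathlib.LinearAlgebra.Matrix.Charpoly.Eigs
import Mathlib.LinearAlgebra.Eigenspace.Triangularizable
import Mathlib.LinearAlgebra.Matrix.ToLin
import Mathlib.Dynamics.PeriodicPts.Defs
import Mathlib.FieldTheory.IsAlgClosed.Basic

/-!
# MP_78e9a5, rows INI and PRM: the cycle lemma

If a matrix permutes nontrivially an independent family of subspaces then it has two eigenvalues
`β` and `β ζ` where `ζ` is a nontrivial root of unity of small order.
-/

set_option autoImplicit false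

open Polynomial

namespace REC

namespace CYL

/-- a nontrivial root of unity of order dividing `k` -/
lemma exists_zeta {K : Type*} [Field K] [IsAlgClosed K] {k : ℕ} (hk : 2 ≤ k) (h : (k : K) ≠ 0) :
    ∃ ζ : K, ζ ≠ 1 ∧ ζ ^ k = 1 := by
  let P : K[X] := ∑ i ∈ Finset.range k, X ^ i
  have h1 : P.degree ≠ 0 := by
    have h2 : P.natDegree = k - 1 := by
      have h3 : P.coeff (k - 1) = 1 := by
        show (∑ i ∈ Finset.range k, (X : K[X]) ^ i).coeff (k - 1) = 1
        rw [finsetSum_coeff, Finset.sum_eq_single (k - 1)]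
        · rw [coeff_X_pow, if_pos rfl]
        · intro b _ hb
          rw [coeff_X_pow, if_neg hb.symm]
        · intro hk'
          exact absurd (Finset.mem_range.2 (by omega)) hk'
      refine le_antisymm ?_ ?_
      · refine natDegree_sum_le_of_forall_le _ _ fun i hi => ?_
        rw [natDegree_X_pow]
        have := Finset.mem_range.1 hi
        omega
      · refine le_natDegree_of_ne_zero ?_
        rw [h3]
        exact one_ne_zero
    intro h0
    have h4 : P.natDegree = 0 := natDegree_eq_zero_iff_degree_le_zero.2 h0.le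
    omega
  obtain ⟨ζ, hζ⟩ := IsAlgClosed.exists_root P h1
  have hζ' : ∑ i ∈ Finset.range k, ζ ^ i = 0 := by
    have h2 : P.eval ζ = 0 := hζ
    have h3 : P.eval ζ = ∑ i ∈ Finset.range k, ζ ^ i := by
      show (∑ i ∈ Finset.range k, (X : K[X]) ^ i).eval ζ = _
      rw [eval_finsetSum]
      refine Finset.sum_congr rfl fun i _ => ?_
      rw [eval_pow, eval_X]
    rw [← h3, h2]
  refine ⟨ζ, ?_, ?_⟩
  · rintro rfl
    apply h
    rw [← hζ']
    simp
  · have h2 := geom_sum_mul ζ k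
    rw [hζ', zero_mul] at h2
    exact (sub_eq_zero.1 h2.symm)

/-- eigenvectors give roots of the characteristic polynomial -/
lemma root_of_eigen {K : Type*} [Field K] {m : ℕ} {A : Matrix (Fin m) (Fin m) K} {c : K}
    {v : Fin m → K} (hv : v ≠ 0) (h : A.mulVec v = c • v) : A.charpoly.IsRoot c := by
  rw [IsRoot.def, Matrix.eval_charpoly]
  apply Matrix.exists_mulVec_eq_zero_iff.1
  refine ⟨v, hv, ?_⟩
  rw [Matrix.sub_mulVec, h, Matrix.scalar_apply, ← Matrix.smul_one_eq_diagonal, Matrix.smul_mulVec,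
    Matrix.one_mulVec, sub_self]

/-- the eigenvector -/
lemma eigen_sum {K : Type*} [Field K] {m k : ℕ} {A : Matrix (Fin m) (Fin m) K} {c : K}
    (hc : c ≠ 0) {w : Fin m → K} (hk : (A ^ k).mulVec w = c ^ k • w) :
    A.mulVec (∑ i ∈ Finset.range k, (c⁻¹ ^ i) • (A ^ i).mulVec w) =
      c • ∑ i ∈ Finset.range k, (c⁻¹ ^ i) • (A ^ i).mulVec w := by
  have h1 : A.mulVec (∑ i ∈ Finset.range k, (c⁻¹ ^ i) • (A ^ i).mulVec w) =
      c • ∑ i ∈ Finset.range k, (c⁻¹ ^ (i + 1)) • (A ^ (i + 1)).mulVec w := by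
    rw [Matrix.mulVec_sum, Finset.smul_sum]
    refine Finset.sum_congr rfl fun i _ => ?_
    rw [Matrix.mulVec_smul, Matrix.mulVec_mulVec, ← pow_succ', smul_smul, pow_succ' c⁻¹,
      ← mul_assoc, mul_inv_cancel₀ hc, one_mul]
  rw [h1]
  congr 1
  have h2 := Finset.sum_range_succ (fun i => (c⁻¹ ^ i) • (A ^ i).mulVec w) k
  have h3 := Finset.sum_range_succ' (fun i => (c⁻¹ ^ i) • (A ^ i).mulVec w) k
  have h4 : (c⁻¹ ^ k) • (A ^ k).mulVec w = w := by
    rw [hk, smul_smul, ← mul_pow, inv_mul_cancel₀ hc, one_pow, one_smul]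
  rw [h4] at h2
  rw [pow_zero, pow_zero, Matrix.one_mulVec, one_smul] at h3
  rw [h2] at h3
  exact (add_right_cancel h3).symm

/-- The cycle lemma. -/
theorem cycle {K : Type*} [Field K] [IsAlgClosed K] {m N : ℕ}
    (hm : ∀ k : ℕ, 0 < k → k ≤ m → (k : K) ≠ 0) (A : Matrix (Fin m) (Fin m) K)
    (hA : ∀ x, A.mulVec x = 0 → x = 0) (W : Fin N → Submodule K (Fin m → K))
    (π : Equiv.Perm (Fin N)) (hW : ∀ j, ∀ x ∈ W j, A.mulVec x ∈ W (π j)) (hind : iSupIndep W)
    (hne : ∀ j, W j ≠ ⊥) (hπ : π ≠ 1) :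
    ∃ (k : ℕ) (β ζ : K), 2 ≤ k ∧ k ≤ m ∧ β ≠ 0 ∧ ζ ≠ 1 ∧ ζ ^ k = 1 ∧ A.charpoly.IsRoot β ∧
      A.charpoly.IsRoot (β * ζ) := by
  classical
  obtain ⟨j, hj⟩ : ∃ j, π j ≠ j := by
    by_contra hcon
    push Not at hcon
    exact hπ (Equiv.ext hcon)
  let k := Function.minimalPeriod π j
  have hper : j ∈ Function.periodicPts π :=
    Function.Injective.mem_periodicPts π.injective j
  have hk0 : 0 < k := Function.minimalPeriod_pos_of_mem_periodicPts hper
  have hk1 : k ≠ 1 := by
    intro h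
    exact hj (Function.minimalPeriod_eq_one_iff_isFixedPt.1 h)
  have hk2 : 2 ≤ k := by omega
  have hkj : π^[k] j = j := Function.iterate_minimalPeriod
  -- iterates
  have hit : ∀ (i : ℕ) (x : Fin m → K), x ∈ W j → (A ^ i).mulVec x ∈ W (π^[i] j) := by
    intro i
    induction i with
    | zero =>
      intro x hx
      rw [pow_zero, Matrix.one_mulVec]
      exact hx
    | succ i ih =>
      intro x hx
      rw [pow_succ', ← Matrix.mulVec_mulVec, Function.iterate_succ_apply']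
      exact hW _ _ (ih x hx)
  have hinjA : ∀ (i : ℕ) (x : Fin m → K), (A ^ i).mulVec x = 0 → x = 0 := by
    intro i
    induction i with
    | zero =>
      intro x hx
      rw [pow_zero, Matrix.one_mulVec] at hx
      exact hx
    | succ i ih =>
      intro x hx
      rw [pow_succ', ← Matrix.mulVec_mulVec] at hx
      exact ih x (hA _ hx)
  -- the eigenvector of the power
  let f : (Fin m → K) →ₗ[K] (Fin m → K) := (A ^ k).mulVecLin
  have hf : ∀ x ∈ W j, f x ∈ W j := by
    intro x hx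
    have h1 := hit k x hx
    rw [hkj] at h1
    exact h1
  have hnt : Nontrivial (W j) := Submodule.nontrivial_iff_ne_bot.2 (hne j)
  obtain ⟨γ, hγ⟩ := Module.End.exists_eigenvalue (f.restrict hf : Module.End K (W j))
  obtain ⟨w', hw'⟩ := hγ.exists_hasEigenvector
  have hw0 : (w' : Fin m → K) ≠ 0 := fun h => hw'.2 (Subtype.ext h)
  have hw1 : (A ^ k).mulVec (w' : Fin m → K) = γ • (w' : Fin m → K) :=
    congrArg Subtype.val hw'.apply_eq_smul
  have hγ0 : γ ≠ 0 := by
    rintro rfl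
    rw [zero_smul] at hw1
    exact hw0 (hinjA k _ hw1)
  obtain ⟨β, hβ⟩ := IsAlgClosed.exists_pow_nat_eq γ hk0
  have hβ0 : β ≠ 0 := by
    rintro rfl
    rw [zero_pow hk0.ne'] at hβ
    exact hγ0 hβ.symm
  -- independence
  have hli : LinearIndependent K (fun i : Fin k => (A ^ (i : ℕ)).mulVec (w' : Fin m → K)) := by
    have hinj : Function.Injective fun i : Fin k => π^[(i : ℕ)] j := by
      intro a b hab
      exact Fin.ext (Function.iterate_injOn_Iio_minimalPeriod a.2 b.2 hab)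
    have h1 : iSupIndep fun i : Fin k => W (π^[(i : ℕ)] j) := hind.comp hinj
    exact h1.linearIndependent _ (fun i => hit i _ w'.2) fun i h => hw0 (hinjA i _ h)
  have hkm : k ≤ m := by
    have h1 := hli.fintype_card_le_finrank
    rw [Fintype.card_fin, Module.finrank_fin_fun] at h1
    exact h1
  obtain ⟨ζ, hζ1, hζ2⟩ := exists_zeta hk2 (hm k hk0 hkm)
  have key : ∀ c : K, c ≠ 0 → c ^ k = γ → A.charpoly.IsRoot c := by
    intro c hc hcγ
    refine root_of_eigen (v := ∑ i ∈ Finset.range k, (c⁻¹ ^ i) • (A ^ i).mulVec (w' : Fin m → K))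
      ?_ (eigen_sum hc (by rw [hcγ]; exact hw1))
    intro h0
    rw [Finset.sum_range] at h0
    have h1 := Fintype.linearIndependent_iff.1 hli _ h0 ⟨0, hk0⟩
    rw [pow_zero] at h1
    exact one_ne_zero h1
  refine ⟨k, β, ζ, hk2, hkm, hβ0, hζ1, hζ2, key β hβ0 hβ, key _ ?_ ?_⟩
  · refine mul_ne_zero hβ0 ?_
    rintro rfl
    rw [zero_pow hk0.ne'] at hζ2
    exact zero_ne_one hζ2
  · rw [mul_pow, hζ2, mul_one, hβ]

/-- a matrix with only one eigenvalue does not permute the subspaces -/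
theorem cycle_uni {K : Type*} [Field K] [IsAlgClosed K] {m N : ℕ}
    (hm : ∀ k : ℕ, 0 < k → k ≤ m → (k : K) ≠ 0) (A : Matrix (Fin m) (Fin m) K)
    (hA : ∀ x, A.mulVec x = 0 → x = 0) (W : Fin N → Submodule K (Fin m → K))
    (π : Equiv.Perm (Fin N)) (hW : ∀ j, ∀ x ∈ W j, A.mulVec x ∈ W (π j)) (hind : iSupIndep W)
    (hne : ∀ j, W j ≠ ⊥) (hr : ∀ c, A.charpoly.IsRoot c → c = 1) : π = 1 := by
  by_contra hπ
  obtain ⟨k, β, ζ, -, -, hβ, hζ, -, h1, h2⟩ := cycle hm A hA W π hW hind hne hπ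
  have e1 := hr _ h1
  have e2 := hr _ h2
  rw [e1, one_mul] at e2
  exact hζ e2

end CYL

end REC
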