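import Pool.Agent.Helper27.REC.StmtsT2
import Pool.Agent.Helper72.REC.CPW
import Pool.Agent.Helper89.REC.CYL

/-!
# MP_78e9a5, row INI: inertia at `l` acts trivially on systems of imprimitivity
-/

set_option autoImplicit false

open NumberField Polynomial

namespace REC

open MU

namespace INIx

/-- every prime over `l` is the kernel of a homomorphism to a given algebraically closed field of
characteristic `l` -/
lemma exists_theta {F : Type} [Field F] {l : ℕ} [hl : Fact l.Prime] {Ω : Type} [Field Ω]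
    [IsAlgClosed Ω] (hΩ : (l : Ω) = 0) (𝔓 : Ideal (Zb F)) (h : Over l 𝔓) :
    ∃ θ : Zb F →+* Ω, RingHom.ker θ = 𝔓 := by
  have hp : 𝔓.IsPrime := h.1
  have hlB : (l : Zb F ⧸ 𝔓) = 0 := by
    have := Ideal.Quotient.eq_zero_iff_mem.2 h.2
    rwa [map_natCast] at this
  have hcB : CharP (Zb F ⧸ 𝔓) l := (CharP.charP_iff_prime_eq_zero hl.out).2 hlB
  have hcΩ : CharP Ω l := (CharP.charP_iff_prime_eq_zero hl.out).2 hΩ
  let _ : Algebra (ZMod l) (Zb F ⧸ 𝔓) := ZMod.algebra _ l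
  let _ : Algebra (ZMod l) Ω := ZMod.algebra _ l
  have hint0 : ∀ x : Zb F, IsIntegral ℤ x := fun x => by
    have h1 : IsIntegral ℤ (x : AlgebraicClosure F) := x.2
    exact (isIntegral_algHom_iff (integralClosure ℤ (AlgebraicClosure F)).val
      Subtype.val_injective).1 h1
  have hint : Algebra.IsIntegral (ZMod l) (Zb F ⧸ 𝔓) := by
    refine ⟨fun x => ?_⟩
    obtain ⟨y, rfl⟩ := Ideal.Quotient.mk_surjective x
    obtain ⟨P, hP, hPy⟩ := hint0 y
    refine ⟨P.map (Int.castRingHom (ZMod l)), hP.map _, ?_⟩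
    rw [eval₂_map]
    have e1 : (algebraMap (ZMod l) (Zb F ⧸ 𝔓)).comp (Int.castRingHom (ZMod l)) =
        (Ideal.Quotient.mk 𝔓).comp (algebraMap ℤ (Zb F)) := RingHom.ext_int _ _
    rw [e1, ← hom_eval₂, hPy, map_zero]
  have halg : Algebra.IsAlgebraic (ZMod l) (Zb F ⧸ 𝔓) := hint.isAlgebraic
  let f : (Zb F ⧸ 𝔓) →ₐ[ZMod l] Ω := IsAlgClosed.lift
  have hfield : IsField (Zb F ⧸ 𝔓) :=
    isField_of_isIntegral_of_isField' (R := ZMod l) (Field.toIsField _)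
  have hinj : Function.Injective f := by
    rw [injective_iff_map_eq_zero]
    intro x hx
    by_contra hne
    obtain ⟨y, hy⟩ := hfield.mul_inv_cancel hne
    have h1 := congrArg f hy
    rw [map_mul, hx, zero_mul, map_one] at h1
    exact zero_ne_one h1
  refine ⟨(f : (Zb F ⧸ 𝔓) →+* Ω).comp (Ideal.Quotient.mk 𝔓), ?_⟩
  ext x
  rw [RingHom.mem_ker, RingHom.comp_apply, ← Ideal.Quotient.eq_zero_iff_mem]
  exact map_eq_zero_iff _ hinj

/-- the powers of `l` -/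
lemma digit_bound {l r k E E' H m : ℕ} (hl : m * H + 2 ≤ l) (hr : 0 < r) (hk : k ≤ m)
    (hE : E ≤ H * ∑ i ∈ Finset.range r, l ^ i) (hE' : E' ≤ H * ∑ i ∈ Finset.range r, l ^ i)
    (hd : ((l ^ r - 1 : ℕ) : ℤ) ∣ (k : ℤ) * (E - E')) (hk0 : 0 < k) : E = E' := by
  have hg0 : 1 ≤ ∑ i ∈ Finset.range r, l ^ i := by
    have := Finset.single_le_sum (f := fun i => l ^ i) (fun i _ => Nat.zero_le _)
      (Finset.mem_range.2 hr)
    simpa using this
  obtain ⟨g, hg⟩ : ∃ g, g = ∑ i ∈ Finset.range r, l ^ i := ⟨_, rfl⟩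
  rw [← hg] at hE hE' hg0
  have hg1 : ((l ^ r - 1 : ℕ) : ℤ) = (g : ℤ) * ((l : ℤ) - 1) := by
    have h1 := geom_sum_mul (l : ℤ) r
    have h2 : 1 ≤ l ^ r := Nat.one_le_pow _ _ (by omega)
    rw [Nat.cast_sub h2, hg]
    push_cast
    exact h1.symm
  have h3 : |(k : ℤ) * (E - E')| < ((l ^ r - 1 : ℕ) : ℤ) := by
    rw [hg1, abs_mul, Nat.abs_cast]
    have h4 : |(E : ℤ) - E'| ≤ H * g := by
      rw [abs_le]
      have a1 : (E : ℤ) ≤ H * g := by exact_mod_cast hE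
      have a2 : (E' : ℤ) ≤ H * g := by exact_mod_cast hE'
      constructor <;> omega
    have h5 : (k : ℤ) * |(E : ℤ) - E'| ≤ m * (H * g) := by
      have b1 : (k : ℤ) ≤ m := by exact_mod_cast hk
      have b2 : (0 : ℤ) ≤ |(E : ℤ) - E'| := abs_nonneg _
      nlinarith
    have h6 : (m : ℤ) * (H * g) + 2 * g ≤ l * g := by
      have c1 : ((m * H + 2 : ℕ) : ℤ) ≤ l := by exact_mod_cast hl
      push_cast at c1
      have c2 : (0 : ℤ) ≤ g := by positivity
      nlinarith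
    have c3 : (1 : ℤ) ≤ g := by exact_mod_cast hg0
    nlinarith
  have h7 := Int.eq_zero_of_abs_lt_dvd hd h3
  rcases mul_eq_zero.1 h7 with h8 | h8
  · exfalso
    have : (k : ℤ) ≠ 0 := by exact_mod_cast hk0.ne'
    exact this h8
  · have h9 : (E : ℤ) = E' := by omega
    exact_mod_cast h9

end INIx

open INIx

theorem INI (hTSR : ST_TSR) (hTCH : ST_TCH) : ST_INI := by
  intro F L _ _ _ _ n m h b d ρ hFL
  obtain ⟨c1, hc1⟩ := hFL
  obtain ⟨c2, hc2⟩ := hTSR F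
  obtain ⟨c3, hc3⟩ := hTCH F
  let H := ∑ j, h j
  refine ⟨c1 + c2 + c3 + m + (m * H + 2), fun l _ hl Ω _ _ ϑ ι R hlΩ hAt N W π hW hind _ hne 𝔓 h𝔓
    σ hσ => ?_⟩
  have hlp : l.Prime := Fact.out
  obtain ⟨θ, hθ⟩ := exists_theta hlΩ 𝔓 h𝔓
  have hθl : θ l = 0 := by rw [map_natCast, hlΩ]
  obtain ⟨r, s, hr, -, hcp⟩ := hc1 l (by omega) Ω ϑ ι R hlΩ hAt θ
  obtain ⟨σ₀, y₀, z₀, hσ₀, hy₀, hz₀, hord⟩ := hc2 l (by omega) Ω θ hθl r hr
  obtain ⟨hex, huq, hmul, -, -⟩ := hc3 l (by omega) Ω θ hθl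
  rw [← hθ] at hσ
  let E : Fin m → ℕ := fun x => ∑ i : Fin r, l ^ (i : ℕ) * h (s i x)
  have hchar : ∀ (τ : Gal F) (a : Ω), CongPow (RingHom.ker θ) 1 τ → FCh l θ r τ a →
      (R τ⁻¹).charpoly = ∏ x, (Polynomial.X - C (a ^ E x)) := by
    rintro τ a hτ ⟨y, z, hy, hz, rfl⟩
    exact hcp τ y z hτ hy hz
  have hchar2 : ∀ (τ : Gal F) (a : Ω), CongPow (RingHom.ker θ) 1 τ → FCh l θ r τ a →
      ∀ c, (R τ⁻¹).charpoly.IsRoot c → ∃ x, c = a ^ E x := by
    intro τ a hτ ha c hc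
    rw [hchar τ a hτ ha, IsRoot.def, eval_prod, Finset.prod_eq_zero_iff] at hc
    obtain ⟨x, -, hx⟩ := hc
    rw [eval_sub, eval_X, eval_C, sub_eq_zero] at hx
    exact ⟨x, hx⟩
  have hinj : ∀ (τ : Gal F) (x : Fin m → Ω), (R τ).mulVec x = 0 → x = 0 := by
    intro τ x hx
    have h1 : (R τ⁻¹ * R τ).mulVec x = 0 := by
      rw [← Matrix.mulVec_mulVec, hx, Matrix.mulVec_zero]
    rw [← map_mul, inv_mul_cancel, map_one, Matrix.one_mulVec] at h1
    exact h1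
  have hm : ∀ k : ℕ, 0 < k → k ≤ m → (k : Ω) ≠ 0 := by
    intro k hk hkm h0
    have hcΩ : CharP Ω l := (CharP.charP_iff_prime_eq_zero hlp).2 hlΩ
    have h1 := Nat.le_of_dvd hk ((CharP.cast_eq_zero_iff Ω l k).1 h0)
    omega
  -- elements with value one
  have huni : ∀ τ : Gal F, CongPow (RingHom.ker θ) 1 τ → FCh l θ r τ 1 → π τ = 1 := by
    intro τ hτ h1
    have h2 := CYL.cycle_uni hm (R τ⁻¹) (hinj _) W (π τ⁻¹) (hW τ⁻¹) hind hne (by
      intro c hc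
      obtain ⟨x, hx⟩ := hchar2 τ 1 hτ h1 c hc
      rw [hx, one_pow])
    rw [map_inv, inv_eq_one] at h2
    exact h2
  -- the generator
  have hlr : 2 ≤ l ^ r := by
    have h1 : l ≤ l ^ r := Nat.le_self_pow hr.ne' l
    have h2 := hlp.two_le
    omega
  have hN : 0 < l ^ r - 1 := by omega
  have hprim : IsPrimitiveRoot (θ z₀) (l ^ r - 1) := by
    rw [← hord]
    exact IsPrimitiveRoot.orderOf _
  have hf₀ : FCh l θ r σ₀ (θ z₀) := ⟨y₀, z₀, hy₀, hz₀, rfl⟩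
  have hπ₀ : π σ₀ = 1 := by
    by_contra hcon
    have hcon' : π σ₀⁻¹ ≠ 1 := by
      rw [map_inv]
      exact inv_ne_one.2 hcon
    obtain ⟨k, β, ζ, hk2, hkm, hβ, hζ, hζk, hr1, hr2⟩ :=
      CYL.cycle hm (R σ₀⁻¹) (hinj _) W (π σ₀⁻¹) (hW σ₀⁻¹) hind hne hcon'
    obtain ⟨x, hx⟩ := hchar2 σ₀ _ hσ₀ hf₀ _ hr1
    obtain ⟨x', hx'⟩ := hchar2 σ₀ _ hσ₀ hf₀ _ hr2
    have hfin : IsOfFinOrder (θ z₀) := by
      rw [← orderOf_pos_iff, hord]
      exact hN
    have h1 : θ z₀ ^ (k * E x) = θ z₀ ^ (k * E x') := by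
      rw [mul_comm k, mul_comm k, pow_mul, pow_mul, ← hx, ← hx', mul_pow, hζk, mul_one]
    rw [hfin.pow_eq_pow_iff_modEq, hord] at h1
    have h2 := (Nat.modEq_iff_dvd.1 h1.symm)
    have hb : ∀ x, E x ≤ H * ∑ i ∈ Finset.range r, l ^ i := by
      intro x
      rw [Finset.mul_sum, Finset.sum_range]
      refine Finset.sum_le_sum fun i _ => ?_
      rw [mul_comm H]
      exact Nat.mul_le_mul_left _ (Finset.single_le_sum (f := h) (fun _ _ => Nat.zero_le _)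
        (Finset.mem_univ (s i x)))
    have h3 : E x = E x' := by
      refine digit_bound (k := k) (m := m) (H := H) (l := l) (r := r) (by omega) hr hkm (hb x)
        (hb x') ?_ (by omega)
      have h4 : (k : ℤ) * ((E x : ℤ) - E x') = ((k * E x : ℕ) : ℤ) - ((k * E x' : ℕ) : ℤ) := by
        push_cast
        ring
      rw [h4]
      exact h2
    rw [← h3, ← hx] at hx'
    apply hζ
    have h5 : β * ζ = β * 1 := by rw [hx', mul_one]
    exact mul_left_cancel₀ hβ h5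
  -- powers of the generator
  have hone : FCh l θ r (1 : Gal F) 1 := by
    obtain ⟨a, ha, ha1⟩ := hex r 1 hr (H72.congPow_one _)
    have h1 := hmul r 1 1 a a hr (H72.congPow_one _) (H72.congPow_one _) ha ha
    rw [one_mul] at h1
    have h2 := huq r 1 _ _ hr (H72.congPow_one _) ha h1
    have h3 : a ≠ 0 := by
      rintro rfl
      rw [zero_pow hN.ne'] at ha1
      exact zero_ne_one ha1
    have h4 : a = 1 := by
      have : a * a = a * 1 := by rw [mul_one]; exact h2.symm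
      exact mul_left_cancel₀ h3 this
    rw [← h4]
    exact ha
  have hpw : ∀ j : ℕ, CongPow (RingHom.ker θ) 1 (σ₀ ^ j : Gal F) ∧
      FCh l θ r (σ₀ ^ j) (θ z₀ ^ j) := by
    intro j
    induction j with
    | zero =>
      rw [pow_zero, pow_zero]
      exact ⟨H72.congPow_one _, hone⟩
    | succ j ih =>
      refine ⟨?_, ?_⟩
      · have := H72.congPow_mul _ _ _ _ _ ih.1 hσ₀
        rw [mul_one] at this
        rw [pow_succ]
        exact this
      · rw [pow_succ, pow_succ]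
        exact hmul r _ _ _ _ hr ih.1 hσ₀ ih.2 hf₀
  -- the general element
  obtain ⟨a, ha, ha1⟩ := hex r σ hr hσ
  have : NeZero (l ^ r - 1) := ⟨hN.ne'⟩
  obtain ⟨k, hk, hka⟩ := hprim.eq_pow_of_pow_eq_one ha1
  obtain ⟨hp1, hp2⟩ := hpw (l ^ r - 1 - k)
  have h1 : CongPow (RingHom.ker θ) 1 (σ * σ₀ ^ (l ^ r - 1 - k) : Gal F) := by
    have := H72.congPow_mul _ _ _ _ _ hσ hp1
    rw [mul_one] at this
    exact this
  have h2 := hmul r _ _ _ _ hr hσ hp1 ha hp2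
  have h3 : a * θ z₀ ^ (l ^ r - 1 - k) = 1 := by
    rw [← hka, ← pow_add, Nat.add_sub_cancel' hk.le]
    exact hprim.pow_eq_one
  rw [h3] at h2
  have h4 := huni _ h1 h2
  rw [map_mul, map_pow, hπ₀, one_pow, mul_one] at h4
  exact h4

end REC
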