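import Pool.Agent.Helper27.REC.StmtsT2
import Pool.Agent.Helper43.MU.Sub
import Pool.Agent.Helper89.REC.CYL

/-!
# MP_78e9a5, row PRM: strongly irreducible summands are primitive in almost all characteristics
-/

set_option autoImplicit false

open NumberField Polynomial

namespace REC

open MU

namespace PRMx

section

variable {n m : ℕ} {L : Type} [Field L] [NumberField L]

/-- the projection of a block can be cancelled -/
lemma at_cancel (b : Blo n m L) {Ω : Type} [Field Ω] (ι : 𝓞 L →+* Ω) (hN : (b.N : Ω) ≠ 0)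
    {X Y : Matrix (Fin m) (Fin m) Ω} (h : X * b.P.map ι = Y * b.P.map ι) : X = Y := by
  have h1 : b.P.map ι * b.Q.map ι = (b.N : Ω) • (1 : Matrix (Fin m) (Fin m) Ω) := by
    rw [← Matrix.map_mul, b.PQ]
    ext i j
    rw [Matrix.map_apply, Matrix.smul_apply, Matrix.smul_apply, smul_eq_mul, smul_eq_mul, map_mul,
      map_natCast, Matrix.one_apply, Matrix.one_apply]
    congr 1
    split_ifs
    · exact map_one ι
    · exact map_zero ι
  have h2 := congrArg (fun M => M * b.Q.map ι) h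
  beta_reduce at h2
  rw [Matrix.mul_assoc, Matrix.mul_assoc, h1, Matrix.mul_smul, Matrix.mul_smul, Matrix.mul_one,
    Matrix.mul_one] at h2
  exact smul_right_injective _ hN h2

/-- near `1` the block acts trivially in characteristic `l` -/
lemma at_one_of_near (b : Blo n m L) {G : Type} [Group G] {l : ℕ} [Fact l.Prime] {Ω : Type}
    [Field Ω] {r : G →* Matrix.GeneralLinearGroup (Fin n) ℤ_[l]} {ϑ : ℤ_[l] →+* Ω}
    {ι : 𝓞 L →+* Ω} {R : G →* Matrix (Fin m) (Fin m) Ω} (hAt : b.At r ϑ ι R) (hl : (l : Ω) = 0)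
    {g : G} (hg : ∀ i j, ‖(r g : Matrix (Fin n) (Fin n) ℤ_[l]) i j -
      (1 : Matrix (Fin n) (Fin n) ℤ_[l]) i j‖ < 1) : R g = 1 := by
  apply at_cancel b ι hAt.1
  rw [← hAt.2 g, Matrix.one_mul]
  have h1 : (r g : Matrix (Fin n) (Fin n) ℤ_[l]).map ϑ = 1 := by
    ext i j
    obtain ⟨y, hy⟩ := (PadicInt.norm_lt_one_iff_dvd _).1 (hg i j)
    have h2 : (r g : Matrix (Fin n) (Fin n) ℤ_[l]) i j =
        (1 : Matrix (Fin n) (Fin n) ℤ_[l]) i j + l * y := by
      rw [← hy]
      ring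
    rw [Matrix.map_apply, h2, map_add, map_mul, map_natCast, hl, zero_mul, add_zero,
      Matrix.one_apply, Matrix.one_apply]
    split_ifs
    · exact map_one ϑ
    · exact map_zero ϑ
  rw [h1, Matrix.mul_one]

/-- unipotent elements act unipotently on blocks -/
lemma at_unip (b : Blo n m L) {G : Type} [Group G] {l : ℕ} [Fact l.Prime] {Ω : Type}
    [Field Ω] {r : G →* Matrix.GeneralLinearGroup (Fin n) ℤ_[l]} {ϑ : ℤ_[l] →+* Ω}
    {ι : 𝓞 L →+* Ω} {R : G →* Matrix (Fin m) (Fin m) Ω} (hAt : b.At r ϑ ι R)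
    {g : G} (hg : (rat r g - 1) ^ n = 0) : (R g - 1) ^ n = 0 := by
  obtain ⟨M, hM⟩ : ∃ M : Matrix (Fin n) (Fin n) ℤ_[l], M = (r g : Matrix (Fin n) (Fin n) ℤ_[l]) :=
    ⟨_, rfl⟩
  have h0 : (M - 1) ^ n = 0 := by
    have hinj : Function.Injective ((algebraMap ℤ_[l] ℚ_[l]).mapMatrix (m := Fin n)) :=
      Matrix.map_injective (FaithfulSMul.algebraMap_injective ℤ_[l] ℚ_[l])
    apply hinj
    rw [map_pow, map_sub, map_one, map_zero, hM]
    exact hg
  have h1 : (M.map ϑ - 1) ^ n = 0 := by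
    have h2 := congrArg (ϑ.mapMatrix (m := Fin n)) h0
    rw [map_pow, map_sub, map_one, map_zero] at h2
    exact h2
  have h2 : ∀ k : ℕ, b.P.map ι * (M.map ϑ - 1) ^ k = (R g - 1) ^ k * b.P.map ι := by
    intro k
    induction k with
    | zero => rw [pow_zero, pow_zero, Matrix.mul_one, Matrix.one_mul]
    | succ k ih =>
      have h3 : b.P.map ι * (M.map ϑ - 1) = (R g - 1) * b.P.map ι := by
        rw [Matrix.mul_sub, Matrix.sub_mul, Matrix.mul_one, Matrix.one_mul, hM, hAt.2 g]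
      rw [pow_succ, ← Matrix.mul_assoc, ih, Matrix.mul_assoc, h3, ← Matrix.mul_assoc, ← pow_succ]
  apply at_cancel b ι hAt.1
  rw [← h2, h1, Matrix.mul_zero, Matrix.zero_mul]

end

/-- the eigenvalues of a unipotent matrix -/
lemma root_unip {K : Type} [Field K] {m n : ℕ} {A : Matrix (Fin m) (Fin m) K}
    (h : (A - 1) ^ n = 0) (c : K) (hc : A.charpoly.IsRoot c) : c = 1 := by
  rw [IsRoot.def, Matrix.eval_charpoly] at hc
  obtain ⟨v, hv, hv0⟩ := Matrix.exists_mulVec_eq_zero_iff.2 hc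
  rw [Matrix.sub_mulVec, Matrix.scalar_apply, ← Matrix.smul_one_eq_diagonal, Matrix.smul_mulVec,
    Matrix.one_mulVec, sub_eq_zero] at hv0
  have h1 : ∀ k : ℕ, ((A - 1) ^ k).mulVec v = (c - 1) ^ k • v := by
    intro k
    induction k with
    | zero => rw [pow_zero, pow_zero, Matrix.one_mulVec, one_smul]
    | succ k ih =>
      rw [pow_succ', ← Matrix.mulVec_mulVec, ih, Matrix.mulVec_smul, Matrix.sub_mulVec,
        Matrix.one_mulVec, ← hv0, pow_succ, ← smul_smul, sub_smul, one_smul]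
  have h2 := h1 n
  rw [h, Matrix.zero_mulVec] at h2
  rcases smul_eq_zero.1 h2.symm with h3 | h3
  · exact sub_eq_zero.1 (eq_zero_of_pow_eq_zero h3)
  · exact absurd h3 hv

/-- the permutation action on a system of imprimitivity -/
lemma exists_perm {G K : Type} [Group G] [Field K] {m N : ℕ} (R : G →* Matrix (Fin m) (Fin m) K)
    (W : Fin N → Submodule K (Fin m → K))
    (hW : ∀ g j, ∃ j', ∀ x ∈ W j, (R g).mulVec x ∈ W j') (hind : iSupIndep W)
    (hne : ∀ j, W j ≠ ⊥) :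
    ∃ π : G →* Equiv.Perm (Fin N), ∀ g j, ∀ x ∈ W j, (R g).mulVec x ∈ W (π g j) := by
  choose f hf using hW
  have hinj : ∀ (g : G) (x : Fin m → K), (R g).mulVec x = 0 → x = 0 := by
    intro g x hx
    have h1 : (R g⁻¹ * R g).mulVec x = 0 := by
      rw [← Matrix.mulVec_mulVec, hx, Matrix.mulVec_zero]
    rw [← map_mul, inv_mul_cancel, map_one, Matrix.one_mulVec] at h1
    exact h1
  have huq : ∀ g j j', (∀ x ∈ W j, (R g).mulVec x ∈ W j') → j' = f g j := by
    intro g j j' h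
    by_contra hcon
    obtain ⟨x, hx, hx0⟩ := Submodule.exists_mem_ne_zero_of_ne_bot (hne j)
    have h1 := hind.pairwiseDisjoint hcon
    have h2 := Submodule.disjoint_def.1 h1 _ (h x hx) (hf g j x hx)
    exact hx0 (hinj g x h2)
  have h1 : ∀ j, f 1 j = j := by
    intro j
    refine (huq 1 j j fun x hx => ?_).symm
    rw [map_one, Matrix.one_mulVec]
    exact hx
  have h2 : ∀ g g' j, f (g * g') j = f g (f g' j) := by
    intro g g' j
    refine (huq _ j _ fun x hx => ?_).symm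
    rw [map_mul, ← Matrix.mulVec_mulVec]
    exact hf _ _ _ (hf _ _ _ hx)
  refine ⟨{ toFun := fun g => ⟨f g, f g⁻¹, fun j => ?_, fun j => ?_⟩,
            map_one' := ?_, map_mul' := ?_ }, fun g j x hx => hf g j x hx⟩
  · rw [← h2, inv_mul_cancel, h1]
  · rw [← h2, mul_inv_cancel, h1]
  · exact Equiv.ext h1
  · intro g g'
    exact Equiv.ext (h2 g g')

end PRMx

open PRMx

theorem PRM (hINI : ST_INI) (hHER : MU.ST_HER) : ST_PRM := by
  intro F L _ _ _ _ n m h b d ρ hUn hSt hFL hSir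
  obtain ⟨Y₀, hY₀n, hY₀o, hY₀⟩ := hHER F ∅ (by simp) (Nat.factorial m)
  obtain ⟨c1, hc1⟩ := hSir Y₀ hY₀o
  obtain ⟨c2, hc2⟩ := hINI F L n m h b d ρ hFL
  refine ⟨c1 + c2 + m, fun l _ hl Ω _ _ ϑ ι R hlΩ hAt => ?_⟩
  have hlp : l.Prime := Fact.out
  have hirr := hc1 l (by omega) Ω ϑ ι R hlΩ hAt
  refine ⟨?_, ?_⟩
  · intro m' B A hBA
    refine hirr m' B (fun g => A g) ⟨hBA.1, fun g => ?_⟩
    exact hBA.2 g
  intro N W hW hind hsup hne
  obtain ⟨π, hπ⟩ := exists_perm R W hW hind hne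
  have hm : ∀ k : ℕ, 0 < k → k ≤ m → (k : Ω) ≠ 0 := by
    intro k hk hkm h0
    have hcΩ : CharP Ω l := (CharP.charP_iff_prime_eq_zero hlp).2 hlΩ
    have h1 := Nat.le_of_dvd hk ((CharP.cast_eq_zero_iff Ω l k).1 h0)
    omega
  have hinj : ∀ (g : Gal F) (x : Fin m → Ω), (R g).mulVec x = 0 → x = 0 := by
    intro g x hx
    have h1 : (R g⁻¹ * R g).mulVec x = 0 := by
      rw [← Matrix.mulVec_mulVec, hx, Matrix.mulVec_zero]
    rw [← map_mul, inv_mul_cancel, map_one, Matrix.one_mulVec] at h1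
    exact h1
  have hNm : N ≤ m := by
    have h1 : ∀ j, ∃ x ∈ W j, x ≠ 0 := fun j => Submodule.exists_mem_ne_zero_of_ne_bot (hne j)
    choose x hx hx0 using h1
    have h2 := (hind.linearIndependent W hx hx0).fintype_card_le_finrank
    rw [Fintype.card_fin, Module.finrank_fin_fun] at h2
    exact h2
  -- the kernel is open
  let U : Set (Gal F) := {g | ∀ i j, ‖(ρ l g : Matrix (Fin n) (Fin n) ℤ_[l]) i j -
      (1 : Matrix (Fin n) (Fin n) ℤ_[l]) i j‖ < 1}
  have hUo : IsOpen U := by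
    have h1 : U = ⋂ i, ⋂ j, {g | ‖(ρ l g : Matrix (Fin n) (Fin n) ℤ_[l]) i j -
      (1 : Matrix (Fin n) (Fin n) ℤ_[l]) i j‖ < 1} := by
      ext g
      simp [U]
    rw [h1]
    refine isOpen_iInter_of_finite fun i => isOpen_iInter_of_finite fun j => ?_
    refine isOpen_lt (continuous_norm.comp (Continuous.sub ?_ continuous_const)) continuous_const
    exact (Units.continuous_val.comp (hUn.1 l)).matrix_elem i j
  have hU1 : (1 : Gal F) ∈ U := by
    intro i j
    rw [map_one, Units.val_one, sub_self, norm_zero]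
    exact one_pos
  have hUY : U ⊆ (π.ker : Set (Gal F)) := by
    intro g hg
    have h1 : R g = 1 := at_one_of_near b hAt hlΩ hg
    rw [SetLike.mem_coe, MonoidHom.mem_ker]
    refine CYL.cycle_uni hm (R g) (hinj g) W (π g) (hπ g) hind hne fun c hc => ?_
    refine root_unip (n := 1) ?_ c hc
    rw [h1, sub_self, pow_one]
  have hYo : IsOpen (π.ker : Set (Gal F)) :=
    Subgroup.isOpen_of_mem_nhds _ (Filter.mem_of_superset (hUo.mem_nhds hU1) hUY)
  have hidx : π.ker.index = Nat.card π.range := Subgroup.index_ker π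
  have hle : π.ker.index ≤ Nat.factorial m := by
    rw [hidx]
    refine (Subgroup.card_le_card_group _).trans ?_
    rw [Nat.card_perm, Nat.card_fin]
    exact Nat.factorial_le hNm
  have hne0 : π.ker.index ≠ 0 := by
    rw [hidx]
    exact Nat.card_pos.ne'
  have hsub : Y₀ ≤ π.ker := by
    refine hY₀ π.ker inferInstance (Subgroup.isClosed_of_isOpen _ hYo) hne0 hle ?_
    intro p hp _ 𝔓 h𝔓 σ hσ
    rw [MonoidHom.mem_ker]
    by_cases hpl : p = l
    · rw [hpl] at h𝔓
      exact hc2 l (by omega) Ω ϑ ι R hlΩ hAt N W π hπ hind hsup hne 𝔓 h𝔓 σ hσ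
    · have h1 := at_unip b hAt (hUn.2 l p hp hpl 𝔓 h𝔓 σ hσ)
      exact CYL.cycle_uni hm (R σ) (hinj σ) W (π σ) (hπ σ) hind hne (root_unip h1)
  have htop : ∀ j, W j = ⊤ := by
    intro j
    refine (irr_stable hirr (W j) fun g v hv => ?_).resolve_left (hne j)
    have h1 := hπ (g : Gal F) j v hv
    have h2 : π (g : Gal F) = 1 := MonoidHom.mem_ker.1 (hsub g.2)
    rw [h2] at h1
    exact h1
  by_contra hcon
  have h1 : (⟨0, by omega⟩ : Fin N) ≠ ⟨1, by omega⟩ := by
    intro h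
    have := congrArg Fin.val h
    simp at this
  have h2 := hind.pairwiseDisjoint h1
  have h3 : Disjoint (W ⟨0, by omega⟩) (W ⟨1, by omega⟩) := h2
  rw [htop ⟨1, by omega⟩, disjoint_top] at h3
  exact hne _ h3

end REC
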