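import Pool.Agent.Helper27.REC.StmtsT

/-!
# MP_78e9a5, row VAL: valuation rings of algebraically closed fields
-/

set_option autoImplicit false

open NumberField Polynomial

namespace REC

namespace VALx

/-- integral elements belong to the valuation ring -/
lemma mem_of_integral {K : Type} [Field K] (A : ValuationSubring K) {x : K}
    (hx : IsIntegral A x) : x ∈ A := by
  obtain ⟨y, hy⟩ := IsIntegrallyClosed.isIntegral_iff.mp hx
  rw [← hy]
  exact y.2

/-- the residue field of a valuation ring of an algebraically closed field -/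
theorem residue_closed (K : Type) [Field K] [IsAlgClosed K] (A : ValuationSubring K) :
    IsAlgClosed (IsLocalRing.ResidueField A) := by
  refine IsAlgClosed.of_exists_root _ fun p hp hirr => ?_
  have hl : p ∈ Polynomial.lifts (IsLocalRing.residue A) := by
    rw [Polynomial.mem_lifts]
    exact Polynomial.map_surjective _ IsLocalRing.residue_surjective p
  obtain ⟨r, hr, hdeg, hmon⟩ := Polynomial.lifts_and_natDegree_eq_and_monic hl hp
  have hd : 0 < p.natDegree := hirr.natDegree_pos
  have hrK : (r.map (algebraMap A K)).degree ≠ 0 := by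
    rw [hmon.degree_map]
    rw [Polynomial.degree_eq_natDegree hmon.ne_zero, hdeg]
    exact_mod_cast hd.ne'
  obtain ⟨z, hz⟩ := IsAlgClosed.exists_root _ hrK
  have hz1 : Polynomial.eval₂ (algebraMap A K) z r = 0 := by
    rw [Polynomial.IsRoot.def, Polynomial.eval_map] at hz
    exact hz
  have hz2 : IsIntegral A z := ⟨r, hmon, hz1⟩
  obtain ⟨a, rfl⟩ := IsIntegrallyClosed.isIntegral_iff.mp hz2
  have h1 : r.eval a = 0 := by
    apply FaithfulSMul.algebraMap_injective A K
    rw [map_zero, ← hz1]
    exact (Polynomial.eval₂_at_apply (algebraMap A K) a).symm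
  refine ⟨IsLocalRing.residue A a, ?_⟩
  rw [← hr, Polynomial.eval_map, Polynomial.eval₂_at_apply, h1, map_zero]

theorem exists_val (L : Type) [Field L] [NumberField L] (l : ℕ) [Fact l.Prime] :
    ∃ (K : Type) (_ : Field K) (_ : IsAlgClosed K) (_ : CharZero K) (A : ValuationSubring K)
      (_ : ℤ_[l] →+* A) (_ : 𝓞 L →+* A), (l : IsLocalRing.ResidueField A) = 0 := by
  let K := AlgebraicClosure ℚ_[l]
  have hK0 : CharZero K := charZero_of_injective_algebraMap (algebraMap ℚ_[l] K).injective
  let f : ℤ_[l] →+* K := (algebraMap ℚ_[l] K).comp (algebraMap ℤ_[l] ℚ_[l])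
  obtain ⟨A, h, hloc⟩ := IsLocalRing.exists_factor_valuationRing f
  let θ : ℤ_[l] →+* A := f.codRestrict A.toSubring h
  have hθ : IsLocalHom θ := hloc
  have halg : Algebra.IsAlgebraic ℚ L := inferInstance
  let j : L →ₐ[ℚ] K := IsAlgClosed.lift
  have hint : ∀ x : 𝓞 L, j (x : L) ∈ A := by
    intro x
    apply mem_of_integral
    have h1 : IsIntegral ℤ (x : L) := x.2
    have h2 : IsIntegral ℤ (j (x : L)) := h1.map (j.restrictScalars ℤ)
    exact h2.tower_top
  let g : 𝓞 L →+* K := (j : L →+* K).comp (algebraMap (𝓞 L) L)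
  let ι : 𝓞 L →+* A := g.codRestrict A.toSubring hint
  refine ⟨K, inferInstance, inferInstance, hK0, A, θ, ι, ?_⟩
  have h1 : ¬ IsUnit (l : ℤ_[l]) := PadicInt.p_nonunit
  have h2 : ¬ IsUnit (l : A) := by
    intro hu
    apply h1
    apply hθ.map_nonunit
    rw [map_natCast]
    exact hu
  have h3 : IsLocalRing.residue A (l : A) = 0 := by
    rw [IsLocalRing.residue_eq_zero_iff]
    exact h2
  rw [map_natCast] at h3
  exact h3

end VALx

theorem VAL : ST_VAL := ⟨fun L _ _ l _ => VALx.exists_val L l, fun K _ _ A =>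
  VALx.residue_closed K A⟩

end REC
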