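import Pool.Agent.Helper57.REC.StmtsX

set_option autoImplicit false

open Polynomial

namespace REC

namespace C89X

variable {K : Type} [Field K]

/-- the characteristic polynomial of a block diagonal matrix -/
theorem charpoly_bd {k : ℕ} (m : Fin k → ℕ) (s : ∀ i, Matrix (Fin (m i)) (Fin (m i)) K) :
    (Matrix.blockDiagonal' s).charpoly = ∏ i, (s i).charpoly := by
  have hbt : (Matrix.blockDiagonal' s).BlockTriangular
      (Sigma.fst : (Σ i, Fin (m i)) → Fin k) := by
    intro x y hxy
    obtain ⟨i, a⟩ := x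
    obtain ⟨j, b⟩ := y
    refine Matrix.blockDiagonal'_apply_ne s a b ?_
    rintro rfl
    exact lt_irrefl _ hxy
  have hcp := Matrix.BlockTriangular.charpoly (Matrix.blockDiagonal' s) hbt
  rw [hcp]
  have hblk : ∀ i : Fin k, ((Matrix.blockDiagonal' s).toSquareBlock
      (Sigma.fst : (Σ i, Fin (m i)) → Fin k) i).charpoly = (s i).charpoly := by
    intro i
    let e : Fin (m i) ≃ {x : Σ i, Fin (m i) // x.1 = i} :=
      { toFun := fun a => ⟨⟨i, a⟩, rfl⟩
        invFun := fun x => Fin.cast (by rw [x.2]) x.1.2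
        left_inv := fun a => rfl
        right_inv := by
          rintro ⟨⟨j, a⟩, h⟩
          subst h
          rfl }
    have h1 : (Matrix.blockDiagonal' s).toSquareBlock
        (Sigma.fst : (Σ i, Fin (m i)) → Fin k) i = Matrix.reindex e e (s i) := by
      ext x y
      obtain ⟨a, rfl⟩ := e.surjective x
      obtain ⟨b, rfl⟩ := e.surjective y
      simp only [Matrix.reindex_apply, Matrix.submatrix_apply, Equiv.symm_apply_apply]
      exact Matrix.blockDiagonal'_apply_eq s i a b
    rw [h1, Matrix.charpoly_reindex]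
  rw [Finset.prod_congr rfl (fun i _ => hblk i)]
  apply Finset.prod_subset (Finset.subset_univ _)
  intro i _ hi
  have h0 : m i = 0 := by
    by_contra h
    apply hi
    rw [Finset.mem_image]
    exact ⟨⟨i, ⟨0, Nat.pos_of_ne_zero h⟩⟩, Finset.mem_univ _, rfl⟩
  have : IsEmpty (Fin (m i)) := by rw [h0]; infer_instance
  rw [Matrix.charpoly, Matrix.det_isEmpty]

end C89X

open C89X

theorem st_XCP : ST_XCP := by
  intro K _ n k m r s P Q hPQ hPQ0 hsum hPr
  let Qb : Matrix (Fin n) (Σ i, Fin (m i)) K := fun a x => Q x.1 a x.2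
  let Pb : Matrix (Σ i, Fin (m i)) (Fin n) K := fun x a => P x.1 x.2 a
  have h1 : Pb * Qb = 1 := by
    ext x y
    obtain ⟨i, a⟩ := x
    obtain ⟨j, b⟩ := y
    have : (Pb * Qb) ⟨i, a⟩ ⟨j, b⟩ = (P i * Q j) a b := rfl
    rw [this]
    by_cases hij : i = j
    · subst hij
      rw [hPQ i]
      by_cases hab : a = b
      · subst hab
        simp
      · rw [Matrix.one_apply_ne hab, Matrix.one_apply_ne]
        intro h
        apply hab
        simpa using h
    · rw [hPQ0 i j hij, Matrix.one_apply_ne]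
      · rfl
      · intro h
        apply hij
        exact congrArg Sigma.fst h
  have h2 : Qb * Pb = 1 := by
    rw [← hsum]
    ext a b
    rw [Matrix.mul_apply, Fintype.sum_sigma, Matrix.sum_apply]
    rfl
  have h3 : Pb * r = Matrix.blockDiagonal' s * Pb := by
    ext x b
    obtain ⟨i, a⟩ := x
    have e1 : (Pb * r) ⟨i, a⟩ b = (P i * r) a b := rfl
    rw [e1, hPr i, Matrix.mul_apply, Matrix.mul_apply, Fintype.sum_sigma]
    rw [Finset.sum_eq_single i]
    · refine Finset.sum_congr rfl fun c _ => ?_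
      rw [Matrix.blockDiagonal'_apply_eq]
    · intro j _ hj
      refine Finset.sum_eq_zero fun c _ => ?_
      rw [Matrix.blockDiagonal'_apply_ne s a c (Ne.symm hj), zero_mul]
    · intro h
      exact absurd (Finset.mem_univ _) h
  have hr : (Qb * Matrix.blockDiagonal' s) * Pb = r := by
    rw [Matrix.mul_assoc, ← h3, ← Matrix.mul_assoc, h2, Matrix.one_mul]
  have hD : Pb * (Qb * Matrix.blockDiagonal' s) = Matrix.blockDiagonal' s := by
    rw [← Matrix.mul_assoc, h1, Matrix.one_mul]
  have hc := Matrix.charpoly_mul_comm' (Qb * Matrix.blockDiagonal' s) Pb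
  rw [hr, hD] at hc
  have htr : Fintype.card (Σ i, Fin (m i)) = Fintype.card (Fin n) := by
    exact Matrix.square_of_invertible Pb Qb h1 h2
  rw [htr] at hc
  have hx : (Polynomial.X : Polynomial K) ^ Fintype.card (Fin n) ≠ 0 :=
    pow_ne_zero _ Polynomial.X_ne_zero
  rw [← charpoly_bd m s]
  exact mul_left_cancel₀ hx hc

end REC
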