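import Pool.Agent.Helper57.REC.StmtsX

set_option autoImplicit false

namespace REC

open MU

theorem st_XCS : ST_CLF → ST_AVS → ST_XCS := by
  intro hCLF hAVS G H K _ _ _ _ φ n r hidx hss
  classical
  set N0 : Subgroup G := φ.range.normalCore with hN0
  have hle : N0 ≤ φ.range := Subgroup.normalCore_le _
  have hn : N0.Normal := Subgroup.normalCore_normal _
  have hfi : φ.range.FiniteIndex := ⟨hidx⟩
  have hfi0 : N0.FiniteIndex := by rw [hN0]; infer_instance
  set N1 : Subgroup H := N0.comap φ with hN1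
  have hidx1 : N1.index ≠ 0 := by
    rw [hN1, Subgroup.index_comap]
    intro h
    have h2 := Subgroup.relIndex_dvd_index_of_normal N0 φ.range
    rw [h] at h2
    exact hfi0.index_ne_zero (Nat.eq_zero_of_zero_dvd h2)
  have h0 : IsSS (r.comp N0.subtype) := by
    refine hCLF G N0 K N0.subtype n r ?_ hss
    rw [Subgroup.range_subtype]
    exact hn
  have h1 : IsSS ((r.comp φ).comp N1.subtype) := by
    intro m B A hsub
    have hex : ∀ y : N0, ∃ x : N1, φ (x : H) = (y : G) := by
      intro y
      obtain ⟨x, hx⟩ := hle y.2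
      refine ⟨⟨x, ?_⟩, hx⟩
      rw [hN1, Subgroup.mem_comap, hx]
      exact y.2
    choose f hf using hex
    obtain ⟨hsub1, hsub2⟩ := hsub
    have hs : IsSub (r.comp N0.subtype) B (fun y => A (f y)) := by
      refine ⟨hsub1, fun y => ?_⟩
      have := hsub2 (f y)
      simp only [MonoidHom.comp_apply, Subgroup.coe_subtype] at this ⊢
      rw [← hf y]
      exact this
    obtain ⟨C, hC, hCr⟩ := h0 m B _ hs
    refine ⟨C, hC, fun x => ?_⟩
    have hx : φ (x : H) ∈ N0 := x.2
    have e1 := hCr ⟨φ (x : H), hx⟩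
    have e2 := hsub2 x
    have e3 := hs.2 ⟨φ (x : H), hx⟩
    simp only [MonoidHom.comp_apply, Subgroup.coe_subtype] at e1 e2 e3 ⊢
    have e4 : A (f ⟨φ (x : H), hx⟩) = A x := by
      have e5 := e3.symm.trans e2
      have e6 := congrArg (fun Z => C * Z) e5
      simp only [← Matrix.mul_assoc, hC, Matrix.one_mul] at e6
      exact e6
    rw [e1, e4]
  refine hAVS H N1 K N1.subtype n (r.comp φ) ?_ h1
  rw [Subgroup.range_subtype]
  exact_mod_cast hidx1

end REC
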