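import Pool.Agent.Helper57.REC.StmtsX
import Pool.Agent.Helper85.REC.LIN0

/-!
# REC, XLN: the exact relation of a summand gives a line stable under an open subgroup
(adapted from Helper85/REC/LIN0.lean)
-/

set_option autoImplicit false
set_option maxHeartbeats 800000

open scoped Classical
open NumberField Polynomial Topology

namespace REC

open Pool.Agent.Helper13.ZL (Pl q)
open MU

namespace XLNh

/-- the map to `ℚ_l` is integral -/
theorem int_hom {l : ℕ} [Fact l.Prime] {L : Type} [Field L] [NumberField L]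
    (ι : 𝓞 L →+* ℚ_[l]) : ∃ ι₀ : 𝓞 L →+* ℤ_[l], (algebraMap ℤ_[l] ℚ_[l]).comp ι₀ = ι := by
  have hinj : Function.Injective (algebraMap ℤ_[l] ℚ_[l]) :=
    FaithfulSMul.algebraMap_injective ℤ_[l] ℚ_[l]
  have h1 : ∀ x : 𝓞 L, ∃ y : ℤ_[l], algebraMap ℤ_[l] ℚ_[l] y = ι x := by
    intro x
    have hx : IsIntegral ℤ x := RingOfIntegers.isIntegral x
    have hint : IsIntegral ℤ_[l] (ι x) := by
      have h5 : IsIntegral ℤ (ι x) := map_isIntegral_int ι hx
      exact h5.tower_top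
    obtain ⟨r, hr⟩ := (IsIntegrallyClosed.isIntegral_iff (R := ℤ_[l]) (K := ℚ_[l])).mp hint
    exact ⟨r, hr⟩
  choose f hf using h1
  refine ⟨{ toFun := f, map_one' := ?_, map_mul' := ?_, map_zero' := ?_, map_add' := ?_ }, ?_⟩
  · exact hinj (by rw [hf, map_one, map_one])
  · intro x y
    exact hinj (by rw [hf, map_mul, map_mul, hf, hf])
  · exact hinj (by rw [hf, map_zero, map_zero])
  · intro x y
    exact hinj (by rw [hf, map_add, map_add, hf, hf])
  · exact RingHom.ext fun x => hf x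

/-- F1 -/
theorem at_eq {n m : ℕ} {L : Type} [Field L] [NumberField L] (b : Blo n m L) {G : Type} [Group G]
    {l : ℕ} [Fact l.Prime] {Ω : Type} [Field Ω] {r : G →* Matrix.GeneralLinearGroup (Fin n) ℤ_[l]}
    {ϑ : ℤ_[l] →+* Ω} {ι : 𝓞 L →+* Ω} {R : G →* Matrix (Fin m) (Fin m) Ω} (h : b.At r ϑ ι R)
    (g : G) : (b.N : Ω) • R g =
      b.P.map ι * (r g : Matrix (Fin n) (Fin n) ℤ_[l]).map ϑ * b.Q.map ι := by
  rw [h.2 g, Matrix.mul_assoc]
  have h1 : b.P.map ι * b.Q.map ι = (b.N : Ω) • (1 : Matrix (Fin m) (Fin m) Ω) := by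
    rw [← Matrix.map_mul, b.PQ, Matrix.map_smul' _ _ _ (map_mul _), map_natCast,
      Matrix.map_one _ (map_zero _) (map_one _)]
  rw [h1, Matrix.mul_smul, Matrix.mul_one]

/-- the representation on the summand is integral and continuous for `l` prime to `N` -/
theorem int_rep {n m : ℕ} {L : Type} [Field L] [NumberField L] (b : Blo n m L) {G : Type}
    [Group G] [TopologicalSpace G] [IsTopologicalGroup G] {l : ℕ} [Fact l.Prime] (hl : b.N < l)
    (r : G →* Matrix.GeneralLinearGroup (Fin n) ℤ_[l]) (hr : Continuous r)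
    {ι : 𝓞 L →+* ℚ_[l]} {R : G →* Matrix (Fin m) (Fin m) ℚ_[l]}
    (h : b.At r (algebraMap ℤ_[l] ℚ_[l]) ι R) :
    ∃ s : G →* Matrix.GeneralLinearGroup (Fin m) ℤ_[l], Continuous s ∧
      ∀ g, (s g : Matrix (Fin m) (Fin m) ℤ_[l]).map (algebraMap ℤ_[l] ℚ_[l]) = R g := by
  obtain ⟨ι₀, hι₀⟩ := int_hom ι
  set a : ℤ_[l] →+* ℚ_[l] := algebraMap ℤ_[l] ℚ_[l] with ha
  have hinj : Function.Injective a := FaithfulSMul.algebraMap_injective ℤ_[l] ℚ_[l]
  have hminj : ∀ x y : Matrix (Fin m) (Fin m) ℤ_[l], x.map a = y.map a → x = y := by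
    intro x y hxy
    ext i j
    exact hinj (congrFun (congrFun hxy i) j)
  have hNu : IsUnit ((b.N : ℕ) : ℤ_[l]) := by
    rw [PadicInt.isUnit_iff]
    by_contra hne
    have h1 : ‖((b.N : ℕ) : ℤ_[l])‖ < 1 := lt_of_le_of_ne (PadicInt.norm_le_one _) hne
    have h2 : ‖(((b.N : ℕ) : ℤ) : ℤ_[l])‖ < 1 := by exact_mod_cast h1
    rw [PadicInt.norm_int_lt_one_iff_dvd] at h2
    have h3 : l ∣ b.N := by exact_mod_cast h2
    exact absurd (Nat.le_of_dvd b.pos h3) (by omega)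
  obtain ⟨u, hu⟩ := hNu
  set f : G → Matrix (Fin m) (Fin m) ℤ_[l] := fun g =>
    ((u⁻¹ : ℤ_[l]ˣ) : ℤ_[l]) • (b.P.map ι₀ * (r g : Matrix (Fin n) (Fin n) ℤ_[l]) * b.Q.map ι₀)
    with hf
  have hfR : ∀ g, (f g).map a = R g := by
    intro g
    have h1 := at_eq b h g
    have h2 : (f g).map a = a ((u⁻¹ : ℤ_[l]ˣ) : ℤ_[l]) •
        (b.P.map ι * (r g : Matrix (Fin n) (Fin n) ℤ_[l]).map a * b.Q.map ι) := by
      rw [hf]
      simp only
      rw [Matrix.map_smul' _ _ _ (map_mul _), Matrix.map_mul, Matrix.map_mul]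
      have h3 : (b.P.map ι₀).map a = b.P.map ι := by
        ext i j
        rw [← hι₀]
        rfl
      have h4 : (b.Q.map ι₀).map a = b.Q.map ι := by
        ext i j
        rw [← hι₀]
        rfl
      rw [h3, h4]
    rw [h2, ← h1, smul_smul]
    have h5 : a ((u⁻¹ : ℤ_[l]ˣ) : ℤ_[l]) * (b.N : ℚ_[l]) = 1 := by
      have h6 : (b.N : ℚ_[l]) = a (u : ℤ_[l]) := by rw [hu, map_natCast]
      rw [h6, ← map_mul, Units.inv_mul, map_one]
    rw [h5, one_smul]
  set F : G →* Matrix (Fin m) (Fin m) ℤ_[l] :=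
    { toFun := f
      map_one' := hminj _ _ (by
        rw [hfR, map_one, Matrix.map_one _ (map_zero _) (map_one _)])
      map_mul' := fun x y => hminj _ _ (by
        rw [hfR, map_mul, Matrix.map_mul, hfR, hfR]) } with hF
  have hFc : Continuous F := by
    have h1 : Continuous fun g : G => ((r g : Matrix.GeneralLinearGroup (Fin n) ℤ_[l]) :
      Matrix (Fin n) (Fin n) ℤ_[l]) := Units.continuous_val.comp hr
    have h2 : Continuous fun g : G => b.P.map ι₀ * (r g : Matrix (Fin n) (Fin n) ℤ_[l]) *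
        b.Q.map ι₀ := (continuous_const.matrix_mul h1).matrix_mul continuous_const
    have h3 : Continuous fun g : G => ((u⁻¹ : ℤ_[l]ˣ) : ℤ_[l]) • (b.P.map ι₀ *
        (r g : Matrix (Fin n) (Fin n) ℤ_[l]) * b.Q.map ι₀) :=
      h2.const_smul ((u⁻¹ : ℤ_[l]ˣ) : ℤ_[l])
    exact h3
  refine ⟨F.toHomUnits, ?_, fun g => hfR g⟩
  rw [Units.continuous_iff]
  constructor
  · exact hFc
  · exact hFc.comp continuous_inv

theorem dsc_cont {G : Type} [Group G] [TopologicalSpace G] {l : ℕ} [Fact l.Prime]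
    (r : G →* Matrix.GeneralLinearGroup (Fin 2) ℤ_[l]) (hr : Continuous r) (m : ℕ) :
    Continuous fun g : G => dsc ((r g : Matrix (Fin 2) (Fin 2) ℤ_[l]) ^ m) := by
  have h1 : Continuous fun g : G => ((r g : Matrix.GeneralLinearGroup (Fin 2) ℤ_[l]) :
      Matrix (Fin 2) (Fin 2) ℤ_[l]) := Units.continuous_val.comp hr
  have h2 : Continuous fun g : G => ((r g : Matrix (Fin 2) (Fin 2) ℤ_[l]) ^ m) :=
    h1.pow m
  have h3 : ∀ i j, Continuous fun g : G => ((r g : Matrix (Fin 2) (Fin 2) ℤ_[l]) ^ m) i j :=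
    fun i j => h2.matrix_elem i j
  unfold dsc
  exact (((h3 0 0).add (h3 1 1)).pow 2).sub (continuous_const.mul
    (((h3 0 0).mul (h3 1 1)).sub ((h3 0 1).mul (h3 1 0))))

end XLNh

open XLNh

theorem st_XLN (hSPQ : ST_SPQ) (hFRB : ST_FRB) (hOVP : ST_OVP) : ST_XLN := by
  intro F L _ _ _ _ _ _ n b S ρ hcon hStb hCmp e hRel
  obtain ⟨-, S', hrel⟩ := hRel
  obtain ⟨l, hl, hNl, ⟨ιL⟩⟩ := hSPQ L b.N
  set a : ℤ_[l] →+* ℚ_[l] := algebraMap ℤ_[l] ℚ_[l] with ha
  have hinj : Function.Injective a := FaithfulSMul.algebraMap_injective ℤ_[l] ℚ_[l]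
  set ι : 𝓞 L →+* ℚ_[l] := ιL.comp (algebraMap (𝓞 L) L) with hι
  have hN0 : (b.N : ℚ_[l]) ≠ 0 := Nat.cast_ne_zero.mpr b.pos.ne'
  obtain ⟨R, hR⟩ := hStb l ℚ_[l] a ι hN0
  obtain ⟨r, hrc, hrR⟩ := int_rep b hNl (ρ l) (hcon l) hR
  obtain ⟨ι₀, hι₀⟩ := int_hom ι
  obtain ⟨m, hm, hgen⟩ := lin_gen F
  obtain ⟨-, -, hO3, -, -, -, hO7⟩ := hOVP F
  -- Frobenius elements
  have key : ∀ (p : ℕ) (𝔓 : Ideal (Zb F)) (k : ℕ) (σ : Gal F), p.Prime → p ∉ insert l (S ∪ S') →
      Over p 𝔓 → 1 ≤ k → CongPow 𝔓 (p ^ k) σ →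
      IsSquare (dsc ((r σ⁻¹ : Matrix (Fin 2) (Fin 2) ℤ_[l]) ^ m)) := by
    intro p 𝔓 k σ hp hpS h𝔓 hk hσ
    simp only [Finset.mem_insert, Finset.mem_union, not_or] at hpS
    obtain ⟨v, hv⟩ := hO3 p 𝔓 hp h𝔓
    obtain ⟨j, hj⟩ := hO7 v 𝔓 hv p k σ hp h𝔓 hσ
    have hj0 : 0 < j := by
      rcases Nat.eq_zero_or_pos j with h0 | h0
      · rw [h0, pow_zero] at hj
        have := Nat.one_lt_pow (by omega : k ≠ 0) hp.one_lt
        omega
      · exact h0
    obtain ⟨x, hx1, hx2⟩ := hgen v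
    have hpv : (p : 𝓞 F) ∈ v.asIdeal := by
      have := (hv.2 (p : 𝓞 F) (p : Zb F) (by simp)).mp h𝔓.2
      exact this
    have hσm : CongPow 𝔓 (p ^ (k * m)) ((σ ^ m : Gal F)) := by
      rw [pow_mul]
      exact congPow_pow 𝔓 (p ^ k) σ hσ m
    obtain ⟨Φ, hΦ⟩ := hCmp p hp hpS.2.1 𝔓 h𝔓 (k * m) (σ ^ m) (Nat.mul_pos hk hm) hσm
    have hσ' : CongPow 𝔓 (q v ^ j) σ := by
      rw [← hj]
      exact hσ
    have h1 := hrel v p 𝔓 j m σ x Φ hp hpS.2.2 hpv hv hj0 hm hσ' hx1 hx2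
      (fun l' _ hl' Ω _ ϑ ι' R' hR' => hΦ l' hl' Ω ϑ ι' R' hR')
    have h2 := hΦ l (fun h => hpS.1 h.symm) ℚ_[l] a ι R hR
    set β : Fin 2 → 𝓞 L := fun s => ∏ τ : F →+* L, RingOfIntegers.mapRingHom τ x ^ (e s τ * j)
      with hβ
    have h3 : (r (σ ^ m)⁻¹ : Matrix (Fin 2) (Fin 2) ℤ_[l]).charpoly =
        ∏ s, (Polynomial.X - C (ι₀ (β s))) := by
      apply Polynomial.map_injective a hinj
      rw [← Matrix.charpoly_map, hrR, h2, h1, Polynomial.map_prod, Polynomial.map_prod]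
      refine Finset.prod_congr rfl fun s _ => ?_
      rw [Polynomial.map_sub, Polynomial.map_sub, map_X, map_X, map_C, map_C, ← hι₀]
      rfl
    have h4 : IsSquare (dsc (r (σ ^ m)⁻¹ : Matrix (Fin 2) (Fin 2) ℤ_[l])) := by
      have hgen4 : ∀ (Y : Matrix (Fin 2) (Fin 2) ℤ_[l]) (c d : ℤ_[l]),
          Y.charpoly = (Polynomial.X - C c) * (Polynomial.X - C d) → IsSquare (dsc Y) := by
        intro Y c d hY
        have h5 : Y.trace = c + d := by
          have h6 := congrArg (fun P => Polynomial.eval 1 P - Polynomial.eval 0 P) hY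
          rw [Matrix.charpoly_fin_two] at h6
          simp only [eval_add, eval_sub, eval_pow, eval_X, eval_mul, eval_C] at h6
          linear_combination (-1) * h6
        have h8 : Y.det = c * d := by
          have h6 := congrArg (fun P => Polynomial.eval 0 P) hY
          rw [Matrix.charpoly_fin_two] at h6
          simp only [eval_add, eval_sub, eval_pow, eval_X, eval_mul, eval_C] at h6
          linear_combination h6
        refine ⟨c - d, ?_⟩
        rw [dsc_eq, h5, h8]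
        ring
      rw [Fin.prod_univ_two] at h3
      exact hgen4 _ _ _ h3
    rw [← inv_pow, map_pow, Units.val_pow_eq_pow_val] at h4
    exact h4
  -- all elements
  have hall : ∀ g : Gal F, IsSquare (dsc ((r g : Matrix (Fin 2) (Fin 2) ℤ_[l]) ^ m)) := by
    intro g
    by_contra hne
    have hopen : IsOpen {x : Gal F |
        ¬ IsSquare (dsc ((r (g * x) : Matrix (Fin 2) (Fin 2) ℤ_[l]) ^ m))} := by
      have h3 : IsClosed {x : Gal F |
          IsSquare (dsc ((r (g * x) : Matrix (Fin 2) (Fin 2) ℤ_[l]) ^ m))} :=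
        gl_sq_closed.preimage ((dsc_cont r hrc m).comp (continuous_const_mul g))
      exact h3.isOpen_compl
    have hmem : {x : Gal F |
        ¬ IsSquare (dsc ((r (g * x) : Matrix (Fin 2) (Fin 2) ℤ_[l]) ^ m))} ∈
        𝓝 (1 : Gal F) := by
      apply hopen.mem_nhds
      simpa using hne
    obtain ⟨E, hE, hEn, hEs⟩ :=
      (krullTopology_mem_nhds_one_iff_of_normal F (AlgebraicClosure F) _).1 hmem
    have hEgal : IsGalois F E := { }
    have hUn : E.fixingSubgroup.Normal := (InfiniteGalois.normal_iff_isGalois E).2 hEgal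
    obtain ⟨p, 𝔓, k, σ, hp, hpS, h𝔓, hk, hσ, hgσ⟩ := hFRB F E.fixingSubgroup hUn
      E.fixingSubgroup_isOpen (insert l (S ∪ S')) g⁻¹
    rw [inv_inv] at hgσ
    have h4 : g⁻¹ * σ⁻¹ ∈ E.fixingSubgroup := by
      have h5 := hUn.conj_mem _ (E.fixingSubgroup.inv_mem hgσ) g⁻¹
      have h6 : g⁻¹ * (g * σ)⁻¹ * g⁻¹⁻¹ = g⁻¹ * σ⁻¹ := by group
      rwa [h6] at h5
    have h7 := hEs h4
    apply h7
    have h8 : g * (g⁻¹ * σ⁻¹) = σ⁻¹ := by group
    change IsSquare (dsc ((r (g * (g⁻¹ * σ⁻¹)) : Matrix (Fin 2) (Fin 2) ℤ_[l]) ^ m))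
    rw [h8]
    exact key p 𝔓 k σ hp hpS h𝔓 hk hσ
  obtain ⟨H, hH, -, u, hu0, hu⟩ := gl2_line r hrc ⊤ isOpen_univ m hm.ne'
    (fun g _ => hall g)
  obtain ⟨i₀, hi₀⟩ : ∃ i, u i ≠ 0 := by
    by_contra hcon
    push Not at hcon
    exact hu0 (funext hcon)
  have hi₀' : a (u i₀) ≠ 0 := fun h0 => hi₀ (hinj (by rw [h0, map_zero]))
  refine ⟨l, hl, ι, R, H, Matrix.of fun i _ => a (u i), fun g => Matrix.of fun _ _ =>
    a ((r (g : Gal F) : Matrix (Fin 2) (Fin 2) ℤ_[l]).mulVec u i₀) / a (u i₀), hR, hH,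
    ⟨Matrix.of fun _ j => if j = i₀ then (a (u i₀))⁻¹ else 0, ?_⟩, fun g => ?_⟩
  · ext c b
    have hc : c = 0 := Subsingleton.elim _ _
    have hb : b = 0 := Subsingleton.elim _ _
    subst hc hb
    rw [Matrix.mul_apply, Finset.sum_eq_single i₀]
    · rw [Matrix.of_apply, Matrix.of_apply, if_pos rfl, inv_mul_cancel₀ hi₀', Matrix.one_apply_eq]
    · intro b _ hb
      rw [Matrix.of_apply, if_neg hb, zero_mul]
    · intro h
      exact absurd (Finset.mem_univ _) h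
  · ext i b
    have h1 : (R.comp H.subtype g * Matrix.of fun i _ => a (u i)) i b =
        a ((r (g : Gal F) : Matrix (Fin 2) (Fin 2) ℤ_[l]).mulVec u i) := by
      rw [Matrix.mul_apply, Matrix.mulVec, dotProduct, map_sum]
      refine Finset.sum_congr rfl fun j _ => ?_
      rw [map_mul]
      change R (g : Gal F) i j * a (u j) = _
      rw [← hrR]
      rfl
    rw [h1, Matrix.mul_apply, Fin.sum_univ_one, Matrix.of_apply]
    change _ = a (u i) * (a ((r (g : Gal F) : Matrix (Fin 2) (Fin 2) ℤ_[l]).mulVec u i₀) /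
      a (u i₀))
    rw [mul_div_assoc', eq_div_iff hi₀', ← map_mul, ← map_mul]
    congr 1
    have h3 := hu g g.2
    have h4 : ∀ i j, (r (g : Gal F) : Matrix (Fin 2) (Fin 2) ℤ_[l]).mulVec u i * u j =
        u i * (r (g : Gal F) : Matrix (Fin 2) (Fin 2) ℤ_[l]).mulVec u j := by
      intro i j
      fin_cases i <;> fin_cases j
      · exact mul_comm _ _
      · exact (mul_comm _ _).trans h3.symm
      · exact (mul_comm _ _).trans h3
      · exact mul_comm _ _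
    exact h4 i i₀

end REC
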