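import Pool.Agent.Helper85.REC.Stmts6
import Pool.Agent.Helper85.REC.Gl2

/-!
# LLN: stable lines of the rational representations
-/

set_option autoImplicit false

open scoped Classical
open NumberField Polynomial

namespace Pool.Agent.Helper89.REC

open Pool.Agent.Helper13.ZL (Pl q)
open MU _root_.REC

theorem exists_Bl (F : Type) [Field F] [NumberField F] (l : ℕ) [Fact l.Prime] :
    ∃ Bl : Finset (Pl F), ∀ v : Pl F, v ∈ Bl ↔ (l : 𝓞 F) ∈ v.asIdeal := by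
  have h0 : Ideal.span {(l : 𝓞 F)} ≠ 0 := by
    rw [Ideal.zero_eq_bot, Ne, Ideal.span_singleton_eq_bot]
    exact_mod_cast (Fact.out : l.Prime).ne_zero
  refine ⟨(Ideal.finite_factors h0).toFinset, fun v => ?_⟩
  rw [Set.Finite.mem_toFinset, Set.mem_ofPred_eq, Ideal.dvd_span_singleton]

/-- a stable line of the rational representation gives an eigenvector in the lattice -/
theorem line_int {G : Type} [Group G] {n l : ℕ} [Fact l.Prime]
    (r : G →* Matrix.GeneralLinearGroup (Fin n) ℤ_[l]) (B : Matrix (Fin n) (Fin 1) ℚ_[l])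
    (A : G → Matrix (Fin 1) (Fin 1) ℚ_[l]) (hsub : IsSub (rat r) B A) :
    ∃ (b : Fin n → ℤ_[l]) (i₀ : Fin n) (χ : G →* ℤ_[l]ˣ), b i₀ = 1 ∧
      (∀ g, (r g : Matrix (Fin n) (Fin n) ℤ_[l]).mulVec b = ((χ g : ℤ_[l]ˣ) : ℤ_[l]) • b) ∧
      ∀ g, (((χ g : ℤ_[l]ˣ) : ℤ_[l]) : ℚ_[l]) = A g 0 0 := by
  obtain ⟨⟨C, hC⟩, hA⟩ := hsub
  have hex : ∃ i, B i 0 ≠ 0 := by
    by_contra hcon
    push Not at hcon
    have h1 := congrFun (congrFun hC 0) 0
    rw [Matrix.mul_apply] at h1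
    simp [hcon] at h1
  obtain ⟨i₁, hi₁⟩ := hex
  have : Nonempty (Fin n) := ⟨i₁⟩
  obtain ⟨i₀, hi₀⟩ := Finite.exists_max (fun i : Fin n => ‖B i 0‖)
  have hB0 : B i₀ 0 ≠ 0 := by
    intro h1
    have h2 := hi₀ i₁
    rw [h1, norm_zero] at h2
    exact hi₁ (norm_le_zero_iff.mp h2)
  set b : Fin n → ℤ_[l] := fun i => ⟨B i 0 / B i₀ 0, by
    rw [norm_div]
    exact div_le_one_of_le₀ (hi₀ i) (norm_nonneg _)⟩ with hb
  have hbc : ∀ i, ((b i : ℤ_[l]) : ℚ_[l]) = B i 0 / B i₀ 0 := fun i => rfl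
  have hb1 : b i₀ = 1 := by
    apply Subtype.ext
    change B i₀ 0 / B i₀ 0 = 1
    exact div_self hB0
  have hAe : ∀ g i, ∑ j, ((r g : Matrix (Fin n) (Fin n) ℤ_[l]) i j : ℚ_[l]) * B j 0 =
      B i 0 * A g 0 0 := by
    intro g i
    have h1 := congrFun (congrFun (hA g) i) 0
    rw [Matrix.mul_apply, Matrix.mul_apply, Fin.sum_univ_one] at h1
    exact h1
  set χ₀ : G → ℤ_[l] := fun g => (r g : Matrix (Fin n) (Fin n) ℤ_[l]).mulVec b i₀ with hχ₀
  have hmv : ∀ g i, (((r g : Matrix (Fin n) (Fin n) ℤ_[l]).mulVec b i : ℤ_[l]) : ℚ_[l]) =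
      B i 0 / B i₀ 0 * A g 0 0 := by
    intro g i
    rw [Matrix.mulVec, dotProduct, PadicInt.coe_sum]
    simp only [PadicInt.coe_mul, hbc]
    rw [div_mul_eq_mul_div, ← hAe g i, Finset.sum_div]
    exact Finset.sum_congr rfl fun j _ => by rw [mul_div_assoc]
  have hχA : ∀ g, ((χ₀ g : ℤ_[l]) : ℚ_[l]) = A g 0 0 := by
    intro g
    rw [hχ₀]
    simp only
    rw [hmv, div_self hB0, one_mul]
  have hmv' : ∀ g, (r g : Matrix (Fin n) (Fin n) ℤ_[l]).mulVec b = χ₀ g • b := by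
    intro g
    funext i
    apply Subtype.ext
    change (((r g : Matrix (Fin n) (Fin n) ℤ_[l]).mulVec b i : ℤ_[l]) : ℚ_[l]) =
      ((χ₀ g • b) i : ℤ_[l])
    rw [hmv, Pi.smul_apply, smul_eq_mul, PadicInt.coe_mul, hχA, hbc, mul_comm]
  let χ₁ : G →* ℤ_[l] :=
    { toFun := χ₀
      map_one' := by
        rw [hχ₀]
        simp only [map_one, Units.val_one, Matrix.one_mulVec]
        exact hb1
      map_mul' := by
        intro g g'
        have h1 : (r (g * g') : Matrix (Fin n) (Fin n) ℤ_[l]).mulVec b = (χ₀ g * χ₀ g') • b := by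
          rw [map_mul, Units.val_mul, ← Matrix.mulVec_mulVec, hmv' g', Matrix.mulVec_smul, hmv' g,
            smul_smul, mul_comm]
        have h2 := congrFun h1 i₀
        rw [Pi.smul_apply, hb1, smul_eq_mul, mul_one] at h2
        exact h2 }
  refine ⟨b, i₀, χ₁.toHomUnits, hb1, fun g => ?_, fun g => ?_⟩
  · rw [MonoidHom.coe_toHomUnits]
    exact hmv' g
  · rw [MonoidHom.coe_toHomUnits]
    exact hχA g

theorem st_LLN : ST_FRV → ST_OVP → ST_CPW → _root_.REC.ST_LLN := by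
  intro hFRV hOVP hCPW F _ _ S hS n w h M l hl B A hsub
  obtain ⟨b, i₀, χ, hb1, hχb, hχA⟩ := line_int (M.ρ l) B A hsub
  obtain ⟨Bl, hBl⟩ := exists_Bl F l
  obtain ⟨hO1, -, -, hO4, -, hO6, -⟩ := hOVP F
  have hb0 : b ≠ 0 := fun h1 => by
    have h2 := congrFun h1 i₀
    rw [hb1] at h2
    exact one_ne_zero h2
  have hover : ∀ (v : Pl F) (𝔓 : Ideal (Zb F)), OverP v 𝔓 → (l : 𝓞 F) ∈ v.asIdeal →
      Over l 𝔓 := fun v 𝔓 h1 h2 => ⟨h1.1, (h1.2 (l : 𝓞 F) (l : Zb F) (by simp)).mpr h2⟩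
  choose PP hPP using hO1
  -- exponents
  have hexp : ∀ v : Pl F, (l : 𝓞 F) ∈ v.asIdeal → ∃ j : Fin n, ∀ σ : Gal F,
      CongPow (PP v) 1 σ → χ σ * (cyc l F σ) ^ (h j) = 1 := by
    intro v hv
    obtain ⟨J, hJ, hJ1⟩ := M.hodgeTate l 1 B A hsub (PP v) (hover v _ (hPP v) hv)
    obtain ⟨j, rfl⟩ := Finset.card_eq_one.mp hJ
    refine ⟨j, fun σ hσ => ?_⟩
    have h1 := hJ1 σ hσ
    rw [Finset.sum_singleton, Matrix.det_fin_one, ← hχA] at h1
    apply Units.ext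
    apply Subtype.ext
    push_cast
    exact h1
  set e : Pl F → ℕ := fun v => if hv : (l : 𝓞 F) ∈ v.asIdeal then h (hexp v hv).choose else 0
    with he
  have hexp' : ∀ v : Pl F, (l : 𝓞 F) ∈ v.asIdeal → ∀ 𝔓 : Ideal (Zb F), OverP v 𝔓 →
      ∀ σ : Gal F, CongPow 𝔓 1 σ → χ σ * (cyc l F σ) ^ (e v) = 1 := by
    intro v hv 𝔓 h𝔓 σ hσ
    obtain ⟨g, hg⟩ := hO6 v 𝔓 (PP v) h𝔓 (hPP v)
    have h1 := (hCPW F l 𝔓 Fact.out (hover v 𝔓 h𝔓 hv)).2.2 g (PP v) hg 1 σ hσ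
    have h2 := (hexp v hv).choose_spec _ h1
    have h3 : ∀ {H : Type} [CommGroup H] (f : Gal F →* H), f (g * σ * g⁻¹) = f σ := by
      intro H _ f
      rw [map_mul, map_mul, map_inv, mul_comm (f g), mul_assoc, mul_inv_cancel, mul_one]
    rw [h3, h3] at h2
    rw [he]
    simp only [dif_pos hv]
    exact h2
  refine ⟨e, fun k hk => ?_⟩
  set ε : Gal F →* (ZMod (l ^ k))ˣ :=
    (Units.map (PadicInt.toZModPow (p := l) k : ℤ_[l] →* ZMod (l ^ k))).comp χ with hε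
  have hεv : ∀ σ, ((ε σ : (ZMod (l ^ k))ˣ) : ZMod (l ^ k)) =
      PadicInt.toZModPow k ((χ σ : ℤ_[l]ˣ) : ℤ_[l]) := fun σ => rfl
  have hε1 : ∀ σ, χ σ = 1 → ε σ = 1 := by
    intro σ h1
    rw [hε, MonoidHom.comp_apply, h1, map_one]
  -- unramified outside `l`
  have hunr : ∀ v : Pl F, v ∉ Bl → Unr ε v := by
    intro v hv 𝔓 h𝔓 σ hσ
    obtain ⟨p, f, hp, -, -, hpo, hpv⟩ := hO4 v 𝔓 h𝔓
    have hpl : p ≠ l := by
      rintro rfl
      exact hv ((hBl v).mpr hpv)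
    apply hε1
    apply Units.ext
    rw [Units.val_one]
    by_cases hpS : p ∈ S
    · have h1 := M.semistable l p hpS hpl 𝔓 hpo σ hσ
      set b' : Fin n → ℚ_[l] := fun i => ((b i : ℤ_[l]) : ℚ_[l]) with hb'
      have h2 : (rat (M.ρ l) σ).mulVec b' = (((χ σ : ℤ_[l]ˣ) : ℤ_[l]) : ℚ_[l]) • b' := by
        funext i
        have h3 := congrArg (fun z : ℤ_[l] => (z : ℚ_[l])) (congrFun (hχb σ) i)
        simp only [Matrix.mulVec, dotProduct, PadicInt.coe_sum, PadicInt.coe_mul, Pi.smul_apply,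
          smul_eq_mul] at h3
        rw [Matrix.mulVec, dotProduct, Pi.smul_apply, smul_eq_mul]
        exact h3
      have h3 : (rat (M.ρ l) σ - 1).mulVec b' =
          ((((χ σ : ℤ_[l]ˣ) : ℤ_[l]) : ℚ_[l]) - 1) • b' := by
        rw [Matrix.sub_mulVec, Matrix.one_mulVec, h2, sub_smul, one_smul]
      have h4 : ∀ m : ℕ, ((rat (M.ρ l) σ - 1) ^ m).mulVec b' =
          ((((χ σ : ℤ_[l]ˣ) : ℤ_[l]) : ℚ_[l]) - 1) ^ m • b' := by
        intro m
        induction m with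
        | zero => rw [pow_zero, pow_zero, Matrix.one_mulVec, one_smul]
        | succ m ih =>
          rw [pow_succ, ← Matrix.mulVec_mulVec, h3, Matrix.mulVec_smul, ih, smul_smul, pow_succ,
            mul_comm]
      have h5 := h4 n
      rw [h1, Matrix.zero_mulVec] at h5
      have h6 := congrFun h5 i₀
      rw [Pi.zero_apply, Pi.smul_apply, hb'] at h6
      simp only [hb1, PadicInt.coe_one, smul_eq_mul, mul_one] at h6
      have h7 := eq_zero_of_pow_eq_zero h6.symm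
      apply Subtype.ext
      exact sub_eq_zero.mp h7
    · have h1 := M.good l p hp hpS hpl 𝔓 hpo σ hσ
      have h2 := congrFun (hχb σ) i₀
      rw [h1, Units.val_one, Matrix.one_mulVec, Pi.smul_apply, hb1, smul_eq_mul, mul_one] at h2
      exact h2.symm
  have hFR : ∀ v : Pl F, ∃ a : (ZMod (l ^ k))ˣ, (v ∈ Bl → a = 1) ∧ (v ∉ Bl → IsFr ε v a) := by
    intro v
    by_cases hv : v ∈ Bl
    · exact ⟨1, fun _ => rfl, fun h1 => absurd hv h1⟩
    · obtain ⟨a, ha⟩ := (hFRV F _ ε v).1 (hunr v hv)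
      exact ⟨a, fun h1 => absurd h1 hv, fun _ => ha⟩
  choose φ hφ1 hφ2 using hFR
  refine ⟨ε, ⟨Bl, φ, ⟨hBl, ?_, ⟨hφ1, hφ2⟩, ?_⟩, ?_⟩, ?_⟩
  · -- open kernel
    obtain ⟨H, hHo, hH⟩ := gl_open (M.ρ l) (M.continuous l) k
    refine Subgroup.isOpen_mono (H₁ := H) (fun g hg => ?_) hHo
    have h1 := (hH g).mp hg
    rw [MonoidHom.mem_ker]
    apply Units.ext
    rw [hεv, Units.val_one]
    have h2 := congrFun (hχb g) i₀
    rw [Pi.smul_apply, hb1, smul_eq_mul, mul_one] at h2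
    have h3 : (l : ℤ_[l]) ^ k ∣ ((χ g : ℤ_[l]ˣ) : ℤ_[l]) - 1 := by
      have h4 : ((χ g : ℤ_[l]ˣ) : ℤ_[l]) - 1 =
          ((M.ρ l g : Matrix (Fin n) (Fin n) ℤ_[l]) - 1).mulVec b i₀ := by
        rw [Matrix.sub_mulVec, Matrix.one_mulVec, Pi.sub_apply, h2, hb1]
      rw [h4, Matrix.mulVec, dotProduct]
      exact Finset.dvd_sum fun j _ => Dvd.dvd.mul_right (h1 i₀ j) _
    rw [← Ideal.mem_span_singleton, ← PadicInt.ker_toZModPow, RingHom.mem_ker, map_sub,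
      map_one, sub_eq_zero] at h3
    exact h3
  · -- exponents
    intro v hv 𝔓 h𝔓 σ hσ
    have h1 := hexp' v ((hBl v).mp hv) 𝔓 h𝔓 σ hσ
    have h2 := congrArg
      (Units.map (PadicInt.toZModPow (p := l) k : ℤ_[l] →* ZMod (l ^ k))) h1
    rw [map_mul, map_pow, map_one] at h2
    rw [MonoidHom.id_apply, zpow_natCast]
    exact h2
  · intro v hv
    have hv' := (hBl v).mp hv
    refine ⟨(hexp v hv').choose, ?_⟩
    rw [he]
    simp only [dif_pos hv']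
  · -- determinant
    intro σ
    have h1 : ((M.ρ l σ : Matrix (Fin n) (Fin n) ℤ_[l]) -
        ((χ σ : ℤ_[l]ˣ) : ℤ_[l]) • (1 : Matrix (Fin n) (Fin n) ℤ_[l])).det = 0 := by
      rw [← Matrix.exists_mulVec_eq_zero_iff]
      refine ⟨b, hb0, ?_⟩
      rw [Matrix.sub_mulVec, hχb, Matrix.smul_mulVec, Matrix.one_mulVec, sub_self]
    have h2 := congrArg (PadicInt.toZModPow (p := l) k) h1
    rw [RingHom.map_det, map_zero, RingHom.mapMatrix_apply] at h2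
    rw [hεv]
    have h3 : ((M.ρ l σ : Matrix (Fin n) (Fin n) ℤ_[l]) -
        ((χ σ : ℤ_[l]ˣ) : ℤ_[l]) • (1 : Matrix (Fin n) (Fin n) ℤ_[l])).map
          (PadicInt.toZModPow (p := l) k) =
        (M.ρ l σ : Matrix (Fin n) (Fin n) ℤ_[l]).map (PadicInt.toZModPow (p := l) k) -
          (PadicInt.toZModPow (p := l) k ((χ σ : ℤ_[l]ˣ) : ℤ_[l])) •
            (1 : Matrix (Fin n) (Fin n) (ZMod (l ^ k))) := by
      ext i j
      simp only [Matrix.map_apply, Matrix.sub_apply, Matrix.smul_apply, smul_eq_mul, map_sub,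
        map_mul, Matrix.one_apply]
      split_ifs <;> simp
    rw [h3] at h2
    exact h2

end Pool.Agent.Helper89.REC
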