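import Pool.Agent.Helper89.REC.RelCore

/-!
# RELK: the exact relation from one prime `l` and all powers `l ^ k`
-/

set_option autoImplicit false

open scoped Classical
open NumberField Polynomial

namespace Pool.Agent.Helper89.REC

open Pool.Agent.Helper13.ZL (Pl q)
open MU _root_.REC

theorem st_RELK : ST_LARK → ST_EV → _root_.REC.ST_RELK := by
  intro hLARK hEV F L _ _ _ _ _ _ S hS n w h M l hl e₀ hcon
  obtain ⟨𝔩, h𝔩, hl𝔩⟩ := exists_prime_over L l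
  obtain ⟨pl, hpl, hlpl⟩ := exists_pl (F := F) L l 𝔩 h𝔩 hl𝔩
  refine ⟨fun τ => e₀ (pl τ), fun τ => ?_, insert l S, Finset.subset_insert _ _, ?_⟩
  · obtain ⟨ε, ⟨Bl, φ, hcy, hB⟩, -⟩ := hcon 1 one_pos
    exact hB _ ((hcy.pl _).mpr (hlpl τ))
  · intro v p 𝔓 j m σ x P hp hpS hpv h𝔓 hj hm hσ hx hxv hP
    have hpl' : p ≠ l := fun h1 => hpS (h1 ▸ Finset.mem_insert_self _ _)
    have h1 : ∀ k : ℕ, 0 < k →
        aeval (∏ τ : F →+* L, RingOfIntegers.mapRingHom τ x ^ (e₀ (pl τ) * j) : 𝓞 L) P ∈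
          𝔩 ^ k := by
      intro k hk
      obtain ⟨ε, hε⟩ := hcon k hk
      exact rel_core hLARK hEV M l k hk ε e₀ hε 𝔩 h𝔩 hl𝔩 pl hpl v p 𝔓 j m σ x P hp hpl' hpv h𝔓
        hσ hx hxv (hP l hpl'.symm)
    have h2 : (aeval (∏ τ : F →+* L, RingOfIntegers.mapRingHom τ x ^ (e₀ (pl τ) * j) : 𝓞 L) P) ∈
        ⨅ k : ℕ, 𝔩 ^ k := by
      rw [Ideal.mem_iInf]
      intro k
      rcases Nat.eq_zero_or_pos k with rfl | hk
      · simp
      · exact h1 k hk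
    rw [Ideal.iInf_pow_eq_bot_of_isDomain 𝔩 h𝔩.ne_top, Ideal.mem_bot] at h2
    exact h2

end Pool.Agent.Helper89.REC
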