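import Pool.Agent.Helper85.REC.Stmts8
import Pool.Agent.Helper22.MU.FRE
import Pool.Agent.Helper22.MU.INR
import Pool.Agent.Helper84.MU.CYC
import Pool.Agent.Helper84.MU.IDX
import Pool.Agent.Helper3.MU.TRC

/-!
# INL: the cyclotomic character modulo `l` on the inertia groups over large primes `l`
-/

set_option autoImplicit false

open scoped Classical
open NumberField Polynomial

namespace Pool.Agent.Helper89.REC

open MU _root_.REC

variable {F : Type} [Field F] [NumberField F]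

/-- the cyclotomic character modulo `l` on the absolute Galois group of `ℚ` -/
noncomputable def cq (F : Type) [Field F] [NumberField F] (l : ℕ) [Fact l.Prime] :
    GalQ F →* (ZMod l)ˣ :=
  (Units.map (PadicInt.toZMod (p := l) : ℤ_[l] →* ZMod l)).comp (cyc l ℚ)

theorem cq_val (l : ℕ) [Fact l.Prime] (t : GalQ F) :
    ((cq F l t : (ZMod l)ˣ) : ZMod l) = PadicInt.toZMod ((cyc l ℚ t : ℤ_[l]ˣ) : ℤ_[l]) := rfl

theorem cq_conj (l : ℕ) [Fact l.Prime] (g t : GalQ F) : cq F l (g⁻¹ * t * g) = cq F l t := by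
  rw [map_mul, map_mul, map_inv, mul_comm (cq F l g)⁻¹, mul_assoc, inv_mul_cancel, mul_one]

theorem closed_ker (l : ℕ) [Fact l.Prime] (m : ℕ) :
    IsClosed {t : GalQ F | cq F l t ^ m = 1} := by
  have h1 : {t : GalQ F | cq F l t ^ m = 1} =
      (fun t : GalQ F => ((cyc l ℚ t : ℤ_[l]ˣ) : ℤ_[l]) ^ m - 1) ⁻¹' Metric.ball 0 1 := by
    ext t
    rw [Set.mem_preimage, mem_ball_zero_iff, Set.mem_ofPred_eq, Units.ext_iff,
      Units.val_pow_eq_pow_val, cq_val, Units.val_one, ← map_pow, ← sub_eq_zero,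
      ← map_one (PadicInt.toZMod (p := l)), ← map_sub, ← RingHom.mem_ker, PadicInt.ker_toZMod,
      IsLocalRing.mem_maximalIdeal, PadicInt.mem_nonunits]
  rw [h1]
  refine (IsUltrametricDist.isClosed_ball 0 1).preimage ?_
  exact ((Units.continuous_val.comp (cyc_continuous l)).pow m).sub continuous_const

theorem st_INL : _root_.REC.ST_INL := by
  intro F _ _ K hK
  obtain ⟨H, e, he, -, -, -, hidx⟩ := st_IDX F
  set D := Module.finrank ℚ F with hD
  have hD0 : 0 < D := Module.finrank_pos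
  set K' := D.factorial * K with hK'
  have hK'0 : 0 < K' := Nat.mul_pos (Nat.factorial_pos D) hK
  refine ⟨2 ^ K' + 2, ?_⟩
  intro l _ hl 𝔓 h𝔓
  by_contra hcon
  push Not at hcon
  have hlp : l.Prime := Fact.out
  set N : Subgroup (GalQ F) := ((powMonoidHom K').comp (cq F l)).ker with hN
  have hmem : ∀ t : GalQ F, t ∈ N ↔ cq F l t ^ K' = 1 := fun t => Iff.rfl
  have hclosed : IsClosed (N : Set (GalQ F)) := closed_ker l K'
  have hin : ∀ p : ℕ, p.Prime → ∀ 𝔔 : Ideal (Zb F), Over p 𝔔 → ∀ σ : GalQ F, CongPow 𝔔 1 σ →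
      σ ∈ N := by
    intro p hp 𝔔 h𝔔 σ hσ
    rw [hmem]
    by_cases hpl : p = l
    · subst hpl
      obtain ⟨g, hg⟩ := (st_FRE F p hp).2 𝔓 𝔔 h𝔓 h𝔔
      have htp : tp g 𝔔 = 𝔓 := by
        ext x
        rw [mem_tp]
        exact (hg x (sm g x) rfl).symm
      have h1 : CP (tp g 𝔔) 1 (g⁻¹ * σ * g) := congPow_conj 𝔔 1 σ g hσ
      rw [htp] at h1
      set t := g⁻¹ * σ * g with ht
      obtain ⟨i, hi0, hiD, hiH⟩ := Subgroup.exists_pow_mem_of_index_ne_zero
        (H := H) (by rw [hidx]; exact hD0.ne') t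
      have h2 : CP 𝔓 1 (t ^ i) := by
        have := congPow_pow 𝔓 1 t h1 i
        rwa [one_pow] at this
      have h3 : CongPow 𝔓 1 (e.symm ⟨t ^ i, hiH⟩ : Gal F) := by
        rw [congPow_e H e he 𝔓 1, MulEquiv.apply_symm_apply]
        exact h2
      have h4 := hcon _ h3
      rw [cyc_esymm p H e he] at h4
      have h5 : cq F p (t ^ i) ^ K = 1 := by
        apply Units.ext
        rw [Units.val_pow_eq_pow_val, cq_val, Units.val_one]
        exact h4
      rw [map_pow, ← pow_mul] at h5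
      have h6 : i * K ∣ K' := by
        rw [hK']
        exact Nat.mul_dvd_mul_right (Nat.dvd_factorial hi0 (by rw [← hidx]; exact hiD)) K
      obtain ⟨c, hc⟩ := h6
      have h7 : cq F p t = cq F p σ := cq_conj p g σ
      rw [← h7, hc, pow_mul, h5, one_pow]
    · have h1 := st_CYC F ℚ l p hp hpl 𝔔 h𝔔 0 σ (by rw [pow_zero]; exact hσ)
      rw [pow_zero] at h1
      have h2 : cq F l σ = 1 := by
        apply Units.ext
        rw [cq_val, h1, map_one, Units.val_one]
      rw [h2, one_pow]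
  have hTop : N = ⊤ := st_INR F N inferInstance hclosed hin
  obtain ⟨𝔔, h𝔔, φ, hφ⟩ := (st_FRE F 2 Nat.prime_two).1
  have h2l : 2 ≠ l := by
    intro h
    have h0 : 1 ≤ 2 ^ K' := Nat.one_le_two_pow
    omega
  have h1 := st_CYC F ℚ l 2 Nat.prime_two h2l 𝔔 h𝔔 1 φ (by rw [pow_one]; exact hφ)
  have h2 : φ ∈ N := hTop ▸ Subgroup.mem_top φ
  rw [hmem, Units.ext_iff, Units.val_pow_eq_pow_val, cq_val, h1, Units.val_one, pow_one] at h2
  have h3 : ((2 ^ K' - 1 : ℕ) : ZMod l) = 0 := by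
    rw [Nat.cast_sub Nat.one_le_two_pow]
    push_cast
    rw [map_natCast] at h2
    push_cast at h2
    rw [h2, sub_self]
  rw [ZMod.natCast_eq_zero_iff] at h3
  have h4 : 0 < 2 ^ K' - 1 := by
    have : 2 ≤ 2 ^ K' := by
      calc 2 = 2 ^ 1 := (pow_one 2).symm
        _ ≤ 2 ^ K' := Nat.pow_le_pow_right two_pos hK'0
    omega
  have h5 := Nat.le_of_dvd h4 h3
  omega

end Pool.Agent.Helper89.REC
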