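import Pool.Agent.Helper85.REC.Stmts7

/-!
# SYB: basic properties of the power residue symbol
-/

set_option autoImplicit false

open scoped Classical
open NumberField

namespace Pool.Agent.Helper89.REC

open Pool.Agent.Helper13.ZL (Pl q)
open MU _root_.REC

variable {K : Type} [Field K] [NumberField K]

theorem sy_inj (n : ℕ) (w : Pl K) (hn : (n : 𝓞 K) ∉ w.asIdeal) (ζ ζ' : (𝓞 K)ˣ) (h : ζ ^ n = 1)
    (h' : ζ' ^ n = 1) (hz : (ζ : 𝓞 K) - ζ' ∈ w.asIdeal) : ζ = ζ' := by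
  set ξ : (𝓞 K)ˣ := ζ * ζ'⁻¹ with hξ
  have h0 : ξ ^ n = 1 := by rw [hξ, mul_pow, inv_pow, h, h', inv_one, mul_one]
  have h1 : (ξ : 𝓞 K) ^ n = 1 := by
    rw [← Units.val_pow_eq_pow_val, h0, Units.val_one]
  have h2 : (ξ : 𝓞 K) - 1 ∈ w.asIdeal := by
    have : (ξ : 𝓞 K) - 1 = ((ζ : 𝓞 K) - ζ') * ((ζ'⁻¹ : (𝓞 K)ˣ) : 𝓞 K) := by
      rw [hξ, Units.val_mul, sub_mul, Units.mul_inv]
    rw [this]
    exact Ideal.mul_mem_right _ _ hz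
  by_contra hne
  have h3 : (ξ : 𝓞 K) ≠ 1 := by
    intro h3
    apply hne
    have h4 : ξ = 1 := Units.ext h3
    exact mul_inv_eq_one.mp h4
  have h4 : (∑ i ∈ Finset.range n, (ξ : 𝓞 K) ^ i) * ((ξ : 𝓞 K) - 1) = 0 := by
    rw [geom_sum_mul, h1, sub_self]
  have h5 : ∑ i ∈ Finset.range n, (ξ : 𝓞 K) ^ i = 0 :=
    (mul_eq_zero.mp h4).resolve_right (sub_ne_zero.mpr h3)
  apply hn
  have h6 : (n : 𝓞 K) = -∑ i ∈ Finset.range n, ((ξ : 𝓞 K) ^ i - 1) := by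
    rw [Finset.sum_sub_distrib, h5]
    simp
  rw [h6]
  refine Ideal.neg_mem_iff _ |>.mpr (Ideal.sum_mem _ fun i _ => ?_)
  obtain ⟨b, hb⟩ := sub_dvd_pow_sub_pow (ξ : 𝓞 K) 1 i
  rw [one_pow] at hb
  rw [hb]
  exact Ideal.mul_mem_right _ _ h2

theorem q_units (w : Pl K) : Nat.card (𝓞 K ⧸ w.asIdeal)ˣ = q w - 1 := by
  have : w.asIdeal.IsMaximal := w.isMaximal
  let _ : Field (𝓞 K ⧸ w.asIdeal) := Ideal.Quotient.field w.asIdeal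
  rw [Nat.card_units, q, Ideal.absNorm_apply, Submodule.cardQuot_apply]

theorem exists_isSy (n : ℕ) (hrt : HasRt K n) (γ : 𝓞 K) (w : Pl K) (hn : (n : 𝓞 K) ∉ w.asIdeal)
    (hγ : γ ∉ w.asIdeal) : ∃ ζ : (𝓞 K)ˣ, IsSy n γ w ζ := by
  obtain ⟨hn0, ζ₀, hζ₀⟩ := hrt
  have hmax : w.asIdeal.IsMaximal := w.isMaximal
  let _ : Field (𝓞 K ⧸ w.asIdeal) := Ideal.Quotient.field w.asIdeal
  set mk := Ideal.Quotient.mk w.asIdeal with hmk
  set z : (𝓞 K ⧸ w.asIdeal)ˣ := Units.map (mk : 𝓞 K →* 𝓞 K ⧸ w.asIdeal) ζ₀ with hz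
  have hinj : ∀ i : ℕ, z ^ i = 1 → ζ₀ ^ i = 1 := by
    intro i hi
    refine sy_inj n w hn (ζ₀ ^ i) 1 ?_ (one_pow n) ?_
    · rw [← pow_mul, mul_comm, pow_mul, hζ₀.pow_eq_one, one_pow]
    · rw [← Ideal.Quotient.eq_zero_iff_mem, map_sub, sub_eq_zero]
      have h1 := congrArg (fun u : (𝓞 K ⧸ w.asIdeal)ˣ => (u : 𝓞 K ⧸ w.asIdeal)) hi
      simpa [hz] using h1
  have hzn : z ^ n = 1 := by
    rw [hz, ← map_pow, hζ₀.pow_eq_one, map_one]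
  have hzp : IsPrimitiveRoot z n :=
    ⟨hzn, fun i hi => hζ₀.dvd_of_pow_eq_one i (hinj i hi)⟩
  have hdvd : n ∣ q w - 1 := by
    have h1 : orderOf z ∣ Nat.card (𝓞 K ⧸ w.asIdeal)ˣ := orderOf_dvd_natCard z
    rw [q_units, ← hzp.eq_orderOf] at h1
    exact h1
  have hγ0 : mk γ ≠ 0 := by
    rw [Ne, Ideal.Quotient.eq_zero_iff_mem]
    exact hγ
  set g : (𝓞 K ⧸ w.asIdeal)ˣ := Units.mk0 (mk γ) hγ0 with hg
  have hgn : (g ^ ((q w - 1) / n)) ^ n = 1 := by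
    rw [← pow_mul, Nat.div_mul_cancel hdvd, ← q_units]
    exact pow_card_eq_one'
  have hne : NeZero n := ⟨hn0.ne'⟩
  have hzp' : IsPrimitiveRoot (z : 𝓞 K ⧸ w.asIdeal) n := hzp.map_of_injective (f := Units.coeHom _)
    Units.val_injective
  obtain ⟨i, -, hi⟩ := hzp'.eq_pow_of_pow_eq_one (ξ := ((g ^ ((q w - 1) / n) :
    (𝓞 K ⧸ w.asIdeal)ˣ) : 𝓞 K ⧸ w.asIdeal)) (by
      rw [← Units.val_pow_eq_pow_val, hgn, Units.val_one])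
  refine ⟨ζ₀ ^ i, ?_, ?_⟩
  · rw [← pow_mul, mul_comm, pow_mul, hζ₀.pow_eq_one, one_pow]
  · rw [← Ideal.Quotient.eq_zero_iff_mem, map_sub, sub_eq_zero, map_pow]
    rw [Units.val_pow_eq_pow_val, hg, Units.val_mk0] at hi
    rw [← hi, Units.val_pow_eq_pow_val, map_pow]
    rfl

theorem st_SYB : _root_.REC.ST_SYB := by
  intro K _ _ n hrt
  have h1 : ∀ (γ : 𝓞 K) (w : Pl K), (n : 𝓞 K) ∉ w.asIdeal → γ ∉ w.asIdeal →
      IsSy n γ w (sy n γ w) := by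
    intro γ w hn hγ
    have hex : (n : 𝓞 K) ∉ w.asIdeal ∧ γ ∉ w.asIdeal ∧ ∃ ζ : (𝓞 K)ˣ, IsSy n γ w ζ :=
      ⟨hn, hγ, exists_isSy n hrt γ w hn hγ⟩
    rw [sy, dif_pos hex]
    exact hex.2.2.choose_spec
  have h5 : ∀ (ζ ζ' : (𝓞 K)ˣ) (w : Pl K), ζ ^ n = 1 → ζ' ^ n = 1 → (n : 𝓞 K) ∉ w.asIdeal →
      (ζ : 𝓞 K) - ζ' ∈ w.asIdeal → ζ = ζ' := fun ζ ζ' w hz hz' hn h => sy_inj n w hn ζ ζ' hz hz' h
  have h2 : ∀ (γ : 𝓞 K) (w : Pl K) (ζ : (𝓞 K)ˣ), (n : 𝓞 K) ∉ w.asIdeal → γ ∉ w.asIdeal →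
      IsSy n γ w ζ → ζ = sy n γ w := by
    intro γ w ζ hn hγ hζ
    have h := h1 γ w hn hγ
    refine h5 _ _ w hζ.1 h.1 hn ?_
    have h6 := Ideal.sub_mem _ hζ.2 h.2
    rwa [sub_sub_sub_cancel_right] at h6
  have hone : ∀ (γ : 𝓞 K) (w : Pl K), ((n : 𝓞 K) ∈ w.asIdeal ∨ γ ∈ w.asIdeal) →
      sy n γ w = 1 := by
    intro γ w h
    rw [sy, dif_neg]
    rintro ⟨ha, hb, -⟩
    rcases h with h | h
    · exact ha h
    · exact hb h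
  refine ⟨h1, h2, ?_, ?_, h5⟩
  · intro γ γ' w hγ hγ'
    by_cases hn : (n : 𝓞 K) ∈ w.asIdeal
    · rw [hone _ w (Or.inl hn), hone _ w (Or.inl hn), hone _ w (Or.inl hn), mul_one]
    · have hγγ : γ * γ' ∉ w.asIdeal := fun h => (w.isPrime.mem_or_mem h).elim hγ hγ'
      refine (h2 _ w _ hn hγγ ⟨?_, ?_⟩).symm
      · rw [mul_pow, (h1 γ w hn hγ).1, (h1 γ' w hn hγ').1, one_mul]
      · have ha := (h1 γ w hn hγ).2
        have hb := (h1 γ' w hn hγ').2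
        have e : ((sy n γ w * sy n γ' w : (𝓞 K)ˣ) : 𝓞 K) - (γ * γ') ^ ((q w - 1) / n) =
            ((sy n γ w : (𝓞 K)ˣ) : 𝓞 K) * (((sy n γ' w : (𝓞 K)ˣ) : 𝓞 K) - γ' ^ ((q w - 1) / n)) +
              (((sy n γ w : (𝓞 K)ˣ) : 𝓞 K) - γ ^ ((q w - 1) / n)) * γ' ^ ((q w - 1) / n) := by
          rw [Units.val_mul, mul_pow]
          ring
        rw [e]
        exact Ideal.add_mem _ (Ideal.mul_mem_left _ _ hb) (Ideal.mul_mem_right _ _ ha)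
  · intro γ γ' w hd
    by_cases hn : (n : 𝓞 K) ∈ w.asIdeal
    · rw [hone _ w (Or.inl hn), hone _ w (Or.inl hn)]
    · by_cases hγ : γ ∈ w.asIdeal
      · have hγ' : γ' ∈ w.asIdeal := by
          have := Ideal.sub_mem _ hγ hd
          rwa [sub_sub_cancel] at this
        rw [hone _ w (Or.inr hγ), hone _ w (Or.inr hγ')]
      · have hγ' : γ' ∉ w.asIdeal := by
          intro h
          apply hγ
          have := Ideal.add_mem _ hd h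
          rwa [sub_add_cancel] at this
        refine h2 _ w _ hn hγ' ⟨(h1 γ w hn hγ).1, ?_⟩
        have ha := (h1 γ w hn hγ).2
        obtain ⟨b, hb⟩ := sub_dvd_pow_sub_pow γ γ' ((q w - 1) / n)
        have hc : γ ^ ((q w - 1) / n) - γ' ^ ((q w - 1) / n) ∈ w.asIdeal := by
          rw [hb]
          exact Ideal.mul_mem_right _ _ hd
        have := Ideal.add_mem _ ha hc
        rwa [sub_add_sub_cancel] at this

end Pool.Agent.Helper89.REC
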