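import Pool.Agent.Helper85.REC.Stmts10

/-!
FINC: finiteness (row of part 9 of the REC project, MP_78e9a5).   [helper89]
-/

set_option autoImplicit false

open scoped Classical
open NumberField

namespace REC

open MU

theorem finc_reps {α κ : Type} [Finite κ] (col : α → κ) (R : α → α → Prop) (𝒯 : Set α)
    (hR : ∀ M ∈ 𝒯, ∀ M' ∈ 𝒯, col M = col M' → R M M') :
    ∃ T : Finset α, (T : Set α) ⊆ 𝒯 ∧ T.card ≤ Nat.card κ ∧ ∀ M ∈ 𝒯, ∃ M' ∈ T, R M M' := by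
  have := Fintype.ofFinite κ
  rcases 𝒯.eq_empty_or_nonempty with h0 | ⟨M₁, hM₁⟩
  · refine ⟨∅, by simp, by simp, ?_⟩
    intro M hM
    rw [h0] at hM
    exact absurd hM (Set.notMem_empty _)
  · have hf : ∀ c : κ, ∃ M ∈ 𝒯, (∃ M' ∈ 𝒯, col M' = c) → col M = c := by
      intro c
      by_cases hc : ∃ M' ∈ 𝒯, col M' = c
      · obtain ⟨M', hM', hc'⟩ := hc
        exact ⟨M', hM', fun _ => hc'⟩
      · exact ⟨M₁, hM₁, fun h => absurd h hc⟩
    choose f hf1 hf2 using hf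
    refine ⟨Finset.univ.image f, ?_, ?_, ?_⟩
    · intro M hM
      simp only [Finset.coe_image, Finset.coe_univ, Set.image_univ, Set.mem_range] at hM
      obtain ⟨c, rfl⟩ := hM
      exact hf1 c
    · rw [Nat.card_eq_fintype_card]
      exact Finset.card_image_le
    · intro M hM
      refine ⟨f (col M), Finset.mem_image_of_mem _ (Finset.mem_univ _), ?_⟩
      exact hR M hM _ (hf1 _) (hf2 (col M) ⟨M, hM, rfl⟩).symm

theorem st_FINC (ADE2 : ST_ADE2) (ISO2 : ST_ISO2) (TIS : ST_TIS) : ST_FINC := by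
  intro F _ _ S hS n w h
  obtain ⟨κ, hκ, col, hcol⟩ := ADE2 F S hS n w h
  refine ⟨Nat.card κ, ?_⟩
  intro 𝒯 hreg
  obtain ⟨T, hT1, hT2, hT3⟩ := finc_reps col (fun M M' : Mot F S n w h => M.AdelicIso M') 𝒯
    (fun M hM M' hM' hc => hcol M M' (hreg M hM) (hreg M' hM') hc)
  refine ⟨⟨T, hT1, hT2, hT3⟩, ?_⟩
  intro hTate
  have key : ∀ M' ∈ 𝒯, ∃ U : Finset (Mot F S n w h), (U : Set (Mot F S n w h)) ⊆ 𝒯 ∧
      ∀ M ∈ 𝒯, M.Isog M' → ∃ M'' ∈ U, M.Iso M'' := by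
    intro M' hM'
    obtain ⟨N, hN⟩ := ISO2 F S n w h M' (hreg M' hM') (hTate M' hM' M' hM')
    obtain ⟨U, hU1, -, hU3⟩ := hN {M | M ∈ 𝒯 ∧ M.Isog M'} (fun M hM => hM.2)
    exact ⟨U, fun M hM => (hU1 hM).1, fun M hM hI => hU3 M ⟨hM, hI⟩⟩
  choose g hg1 hg2 using key
  refine ⟨T.attach.biUnion (fun M' => g M'.1 (hT1 M'.2)), ?_, ?_⟩
  · intro M hM
    simp only [Finset.coe_biUnion, Set.mem_iUnion] at hM
    obtain ⟨M', -, hM⟩ := hM
    exact hg1 _ _ hM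
  · intro M hM
    obtain ⟨M', hM', hA⟩ := hT3 M hM
    have hI : M.Isog M' := TIS F S n w h M M' (hTate M hM M' (hT1 hM')) hA
    obtain ⟨M'', hM'', hiso⟩ := hg2 M' (hT1 hM') M hM hI
    exact ⟨M'', Finset.mem_biUnion.2 ⟨⟨M', hM'⟩, Finset.mem_attach _ _, hM''⟩, hiso⟩

end REC
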