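import Pool.Agent.Helper85.REC.Stmts10

/-!
JZ: the theorem of Jordan and Zassenhaus (row of part 9 of the REC project, MP_78e9a5).   [helper89]
-/

set_option autoImplicit false

open scoped Classical
open NumberField

namespace REC

open MU

theorem jz_mult {n : ℕ} (b : Matrix (Fin n) (Fin n) ℚ) :
    ∃ k : ℤ, k ≠ 0 ∧ Itg ((k : ℚ) • b) := by
  obtain ⟨c, hc⟩ := IsLocalization.exist_integer_multiples_of_finite (nonZeroDivisors ℤ)
    (fun p : Fin n × Fin n => b p.1 p.2)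
  refine ⟨(c : ℤ), nonZeroDivisors.coe_ne_zero c, ?_⟩
  have h1 : ∀ i j, ∃ z : ℤ, (z : ℚ) = ((c : ℤ) : ℚ) * b i j := by
    intro i j
    obtain ⟨z, hz⟩ := hc (i, j)
    refine ⟨z, ?_⟩
    simpa using hz
  choose z hz using h1
  refine ⟨Matrix.of z, ?_⟩
  ext i j
  simp [hz]

/-- the lattice `g ℤ^n` -/
noncomputable def latG {n : ℕ} (g : Matrix (Fin n) (Fin n) ℚ) : Submodule ℤ (Fin n → ℚ) :=
  LinearMap.range (((Matrix.mulVecLin g).restrictScalars ℤ).comp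
    (LinearMap.compLeft (Algebra.linearMap ℤ ℚ) (Fin n)))

theorem mem_latG {n : ℕ} (g : Matrix (Fin n) (Fin n) ℚ) (x : Fin n → ℚ) :
    x ∈ latG g ↔ ∃ z : Fin n → ℤ, g.mulVec (fun i => (z i : ℚ)) = x := by
  unfold latG
  rw [LinearMap.mem_range]
  rfl

theorem latG_fg {n : ℕ} (g : Matrix (Fin n) (Fin n) ℚ) : (latG g).FG := by
  unfold latG
  rw [LinearMap.range_eq_map]
  exact Submodule.FG.map _ Module.Finite.fg_top

theorem jz_col {n : ℕ} (g t : Matrix (Fin n) (Fin n) ℚ) (h : latG g ≤ latG t) :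
    ∃ z : Matrix (Fin n) (Fin n) ℤ, g = t * z.map (algebraMap ℤ ℚ) := by
  have h1 : ∀ j : Fin n, ∃ z : Fin n → ℤ, t.mulVec (fun i => (z i : ℚ)) = g.mulVec (Pi.single j 1) := by
    intro j
    have h2 : g.mulVec (Pi.single j 1) ∈ latG g := by
      rw [mem_latG]
      refine ⟨Pi.single j 1, ?_⟩
      congr 1
      ext i
      by_cases hij : i = j
      · subst hij; simp
      · simp [Pi.single_eq_of_ne hij]
    exact (mem_latG _ _).1 (h h2)
  choose z hz using h1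
  refine ⟨Matrix.of (fun i j => z j i), ?_⟩
  ext i j
  have h3 := congrFun (hz j) i
  rw [Matrix.mulVec_single_one] at h3
  simp only [Matrix.col_apply] at h3
  rw [← h3, Matrix.mul_apply]
  rfl

theorem jz_unit {n : ℕ} (g t : Matrix.GeneralLinearGroup (Fin n) ℚ)
    (h : latG (g : Matrix (Fin n) (Fin n) ℚ) = latG (t : Matrix (Fin n) (Fin n) ℚ)) :
    ∃ u : Matrix.GeneralLinearGroup (Fin n) ℤ, (g : Matrix (Fin n) (Fin n) ℚ) =
      t * (u : Matrix (Fin n) (Fin n) ℤ).map (algebraMap ℤ ℚ) := by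
  obtain ⟨z, hz⟩ := jz_col _ _ h.le
  obtain ⟨z', hz'⟩ := jz_col _ _ h.ge
  have h1 : (t : Matrix (Fin n) (Fin n) ℚ) * ((z * z').map (algebraMap ℤ ℚ)) = t * 1 := by
    rw [Matrix.map_mul, ← mul_assoc, ← hz, mul_one]
    exact hz'.symm
  have h2 : (z * z').map (algebraMap ℤ ℚ) = (1 : Matrix (Fin n) (Fin n) ℚ) := by
    have := congrArg (fun y => ((t⁻¹ : Matrix.GeneralLinearGroup (Fin n) ℚ) :
      Matrix (Fin n) (Fin n) ℚ) * y) h1
    simpa [← mul_assoc] using this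
  have h3 : z * z' = 1 := by
    have h4 : (z * z').map (algebraMap ℤ ℚ) = (1 : Matrix (Fin n) (Fin n) ℤ).map (algebraMap ℤ ℚ) := by
      rw [h2]
      simp
    exact Matrix.map_injective (RingHom.injective_int (algebraMap ℤ ℚ)) h4
  exact ⟨⟨z, z', h3, mul_eq_one_comm.1 h3⟩, hz⟩

theorem jz_span {n : ℕ} (g : Matrix.GeneralLinearGroup (Fin n) ℚ) :
    Submodule.span ℚ (latG (g : Matrix (Fin n) (Fin n) ℚ) : Set (Fin n → ℚ)) = ⊤ := by
  rw [eq_top_iff]
  intro x _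
  obtain ⟨y, hy⟩ : ∃ y : Fin n → ℚ, (g : Matrix (Fin n) (Fin n) ℚ).mulVec y = x := by
    refine ⟨((g⁻¹ : Matrix.GeneralLinearGroup (Fin n) ℚ) : Matrix (Fin n) (Fin n) ℚ).mulVec x, ?_⟩
    rw [Matrix.mulVec_mulVec]
    simp
  have h1 : (g : Matrix (Fin n) (Fin n) ℚ).mulVec y =
      ∑ j, y j • (g : Matrix (Fin n) (Fin n) ℚ).mulVec (Pi.single j 1) := by
    conv_lhs => rw [← Finset.univ_sum_single y]
    rw [Matrix.mulVec_sum]
    refine Finset.sum_congr rfl fun j _ => ?_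
    rw [← Matrix.mulVec_smul]
    congr 1
    rw [← Pi.single_smul]
    simp
  rw [← hy, h1]
  refine Submodule.sum_mem _ fun j _ => Submodule.smul_mem _ _ (Submodule.subset_span ?_)
  show _ ∈ latG (g : Matrix (Fin n) (Fin n) ℚ)
  rw [mem_latG]
  refine ⟨Pi.single j 1, ?_⟩
  congr 1
  ext i
  by_cases hij : i = j
  · subst hij; simp
  · simp [Pi.single_eq_of_ne hij]

theorem jz_map {n : ℕ} (a g : Matrix (Fin n) (Fin n) ℚ) (f : (Fin n → ℚ) ≃ₗ[ℚ] (Fin n → ℚ))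
    (hf : ∀ x, f x = a.mulVec x) :
    (latG g).map ((f : (Fin n → ℚ) →ₗ[ℚ] (Fin n → ℚ)).restrictScalars ℤ) = latG (a * g) := by
  ext x
  rw [Submodule.mem_map, mem_latG]
  constructor
  · rintro ⟨y, hy, rfl⟩
    obtain ⟨z, rfl⟩ := (mem_latG _ _).1 hy
    refine ⟨z, ?_⟩
    show _ = f _
    rw [hf, Matrix.mulVec_mulVec]
  · rintro ⟨z, rfl⟩
    refine ⟨g.mulVec (fun i => (z i : ℚ)), (mem_latG _ _).2 ⟨z, rfl⟩, ?_⟩
    show f _ = _
    rw [hf, Matrix.mulVec_mulVec]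

theorem jz_finL (CRD : ST_CRD) (JZS : ST_JZS) (n : ℕ) (B : Subalgebra ℚ (Matrix (Fin n) (Fin n) ℚ))
    (hB : ∀ W : Submodule ℚ (Fin n → ℚ), (∀ b ∈ B, ∀ x ∈ W, Matrix.mulVec b x ∈ W) →
      ∃ e : Matrix (Fin n) (Fin n) ℚ, (∀ b ∈ B, e * b = b * e) ∧ (∀ x, e.mulVec x ∈ W) ∧
        ∀ x ∈ W, e.mulVec x = x) (N : ℕ) (hN : 0 < N) :
    FinL ℤ (fun (b : {b : Matrix (Fin n) (Fin n) ℚ // b ∈ B ∧ Itg b}) =>
      (N : ℚ) • Matrix.mulVecLin b.1) := by
  have hN' : (N : ℚ) ≠ 0 := by exact_mod_cast hN.ne'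
  have hst : ∀ W : Submodule ℚ (Fin n → ℚ),
      (∀ b : {b : Matrix (Fin n) (Fin n) ℚ // b ∈ B ∧ Itg b}, ∀ v ∈ W,
        ((N : ℚ) • Matrix.mulVecLin b.1) v ∈ W) → ∀ b ∈ B, ∀ v ∈ W, Matrix.mulVec b v ∈ W := by
    intro W hW b hb v hv
    obtain ⟨k, hk, hk'⟩ := jz_mult b
    have hk2 : (k : ℚ) ≠ 0 := by exact_mod_cast hk
    have h1 := hW ⟨(k : ℚ) • b, B.smul_mem hb _, hk'⟩ v hv
    simp only [LinearMap.smul_apply, Matrix.mulVecLin_apply, Matrix.smul_mulVec] at h1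
    rw [Submodule.smul_mem_iff _ hN', Submodule.smul_mem_iff _ hk2] at h1
    exact h1
  apply CRD ℤ ℚ (Fin n → ℚ)
  · intro a ha
    have : NeZero a.natAbs := ⟨Int.natAbs_ne_zero.2 ha⟩
    exact Finite.of_equiv _ (Int.quotientSpanEquivZMod a).symm.toEquiv
  · intro W hW
    obtain ⟨e, he1, he2, he3⟩ := hB W (hst W hW)
    refine ⟨LinearMap.ker (Matrix.mulVecLin e), ?_, ?_⟩
    · intro b v hv
      rw [LinearMap.mem_ker, Matrix.mulVecLin_apply] at hv ⊢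
      rw [LinearMap.smul_apply, Matrix.mulVecLin_apply, Matrix.mulVec_smul, Matrix.mulVec_mulVec,
        he1 b.1 b.2.1, ← Matrix.mulVec_mulVec, hv]
      simp
    · constructor
      · rw [Submodule.disjoint_def]
        intro x hx hx'
        rw [LinearMap.mem_ker, Matrix.mulVecLin_apply, he3 x hx] at hx'
        exact hx'
      · rw [codisjoint_iff, eq_top_iff]
        intro x _
        rw [Submodule.mem_sup]
        refine ⟨e.mulVec x, he2 x, x - e.mulVec x, ?_, by simp⟩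
        rw [LinearMap.mem_ker, Matrix.mulVecLin_apply, Matrix.mulVec_sub, he3 _ (he2 x), sub_self]
  · intro W hW hirr
    apply JZS
    intro W₁ hW₁
    have h1 := hirr (W₁.map W.subtype) ?_ (Submodule.map_subtype_le _ _)
    · rcases h1 with h1 | h1
      · left
        apply Submodule.map_injective_of_injective W.injective_subtype
        rw [h1, Submodule.map_bot]
      · right
        rw [eq_top_iff]
        intro x _
        have h2 : (x : Fin n → ℚ) ∈ W₁.map W.subtype := by rw [h1]; exact x.2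
        obtain ⟨y, hy, hy'⟩ := Submodule.mem_map.1 h2
        have : y = x := Subtype.ext hy'
        rwa [← this]
    · intro b v hv
      obtain ⟨y, hy, rfl⟩ := Submodule.mem_map.1 hv
      exact Submodule.mem_map.2 ⟨_, hW₁ b y hy, rfl⟩

theorem st_JZ (CRD : ST_CRD) (JZS : ST_JZS) : ST_JZ := by
  intro n B hB N hN
  have hN' : (N : ℚ) ≠ 0 := by exact_mod_cast hN.ne'
  obtain ⟨T, hT, hT'⟩ := jz_finL CRD JZS n B hB N hN
  have hch : ∀ L ∈ T, ∃ t : Matrix.GeneralLinearGroup (Fin n) ℚ,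
      (∃ t' : Matrix.GeneralLinearGroup (Fin n) ℚ, latG (t' : Matrix (Fin n) (Fin n) ℚ) = L) →
        latG (t : Matrix (Fin n) (Fin n) ℚ) = L := by
    intro L _
    by_cases h : ∃ t' : Matrix.GeneralLinearGroup (Fin n) ℚ,
        latG (t' : Matrix (Fin n) (Fin n) ℚ) = L
    · obtain ⟨t', ht'⟩ := h
      exact ⟨t', fun _ => ht'⟩
    · exact ⟨1, fun h' => absurd h' h⟩
  choose! t ht using hch
  refine ⟨hT.toFinset.image t, ?_⟩
  intro g hg
  obtain ⟨f, hf, hfT⟩ := hT' (latG (g : Matrix (Fin n) (Fin n) ℚ)) (latG_fg _) (jz_span g) (by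
    intro b v hv
    obtain ⟨z, rfl⟩ := (mem_latG _ _).1 hv
    obtain ⟨y, hy⟩ := hg b.1 b.2.1 b.2.2
    rw [mem_latG]
    refine ⟨y.mulVec z, ?_⟩
    have h1 : (fun i => ((y.mulVec z i : ℤ) : ℚ)) =
        (y.map (algebraMap ℤ ℚ)).mulVec (fun i => (z i : ℚ)) := by
      ext i
      simp [Matrix.mulVec, dotProduct]
    rw [h1, ← hy, LinearMap.smul_apply, Matrix.mulVecLin_apply, Matrix.mulVec_mulVec,
      Matrix.mulVec_mulVec, ← Matrix.smul_mulVec, Matrix.mul_smul, ← mul_assoc, ← mul_assoc]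
    simp)
  -- the matrix of f
  obtain ⟨a, ha⟩ : ∃ a : Matrix.GeneralLinearGroup (Fin n) ℚ,
      ∀ x, f x = (a : Matrix (Fin n) (Fin n) ℚ).mulVec x := by
    refine ⟨⟨LinearMap.toMatrix' (f : (Fin n → ℚ) →ₗ[ℚ] (Fin n → ℚ)),
      LinearMap.toMatrix' (f.symm : (Fin n → ℚ) →ₗ[ℚ] (Fin n → ℚ)), ?_, ?_⟩, ?_⟩
    · rw [← LinearMap.toMatrix'_comp]
      simp
    · rw [← LinearMap.toMatrix'_comp]
      simp
    · intro x
      show _ = (LinearMap.toMatrix' (f : (Fin n → ℚ) →ₗ[ℚ] (Fin n → ℚ))).mulVec x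
      rw [LinearMap.toMatrix'_mulVec]
      rfl
  have hab : ∀ b ∈ B, (a : Matrix (Fin n) (Fin n) ℚ) * b = b * a := by
    intro b hb
    obtain ⟨k, hk, hk'⟩ := jz_mult b
    have hk2 : (k : ℚ) ≠ 0 := by exact_mod_cast hk
    apply Matrix.mulVec_injective
    ext x : 1
    have h1 := hf ⟨(k : ℚ) • b, B.smul_mem hb _, hk'⟩ x
    simp only [LinearMap.smul_apply, Matrix.mulVecLin_apply, map_smul] at h1
    have h2 := smul_right_injective _ hk2 (smul_right_injective _ hN' h1)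
    simp only [ha, Matrix.mulVec_mulVec] at h2
    exact h2
  rw [jz_map _ _ f ha] at hfT
  have h3 : latG ((a * g : Matrix.GeneralLinearGroup (Fin n) ℚ) : Matrix (Fin n) (Fin n) ℚ) =
      latG (a * g : Matrix (Fin n) (Fin n) ℚ) := rfl
  have h4 := ht _ hfT ⟨a * g, h3⟩
  rw [← h3] at h4
  obtain ⟨u, hu⟩ := jz_unit _ _ h4.symm
  rw [h3] at hu
  refine ⟨_, Finset.mem_image_of_mem t (hT.mem_toFinset.2 hfT), a⁻¹, u, ?_, ?_⟩
  · intro b hb
    have h5 := hab b hb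
    have h6 : ((a⁻¹ : Matrix.GeneralLinearGroup (Fin n) ℚ) : Matrix (Fin n) (Fin n) ℚ) *
        ((a : Matrix (Fin n) (Fin n) ℚ) * b) *
        ((a⁻¹ : Matrix.GeneralLinearGroup (Fin n) ℚ) : Matrix (Fin n) (Fin n) ℚ) =
        ((a⁻¹ : Matrix.GeneralLinearGroup (Fin n) ℚ) : Matrix (Fin n) (Fin n) ℚ) *
        (b * (a : Matrix (Fin n) (Fin n) ℚ)) *
        ((a⁻¹ : Matrix.GeneralLinearGroup (Fin n) ℚ) : Matrix (Fin n) (Fin n) ℚ) := by rw [h5]
    simp only [← mul_assoc, Units.inv_mul, one_mul] at h6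
    simp only [mul_assoc, Units.mul_inv, mul_one] at h6
    exact h6.symm
  · rw [mul_assoc, ← hu]
    simp

end REC
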