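import Pool.Agent.Helper85.REC.Stmts10

/-!
SML: small motives are atoms or commutative (row of part 9 of the REC project, MP_78e9a5).
[helper89]
-/

set_option autoImplicit false

open scoped Classical
open NumberField

namespace REC

open MU

theorem sml_one {G K : Type} [Group G] [Field K] (r : G →* Matrix (Fin 1) (Fin 1) K) : IsIrr r := by
  intro m B A hB
  obtain ⟨⟨C, hC⟩, -⟩ := hB
  have h1 : m ≤ 1 := by
    have h2 := Matrix.rank_mul_le_right C B
    rw [hC, Matrix.rank_one, Fintype.card_fin] at h2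
    have h3 := Matrix.rank_le_height B
    omega
  omega

theorem st_SML (CRG : ST_CRG) (IRB : ST_IRB) (FD2 : ST_FD2) (NF2 : ST_NF2) (CMT : ST_CMT)
    (IR3 : ST_IR3) (FD3 : ST_FD3) (NFD : ST_NFD) : ST_SML := by
  intro F _ _ S hS n w h M hM
  rcases hM with hn | ⟨hn, hinj, hflt, hss⟩ | ⟨hn, hinj, hsym, hflt, hirr⟩
  · subst hn
    refine Or.inl ⟨fun l _ => sml_one _, 0, fun l _ _ => ⟨sml_one _, fun u _ => ⟨u 0 0, ?_⟩⟩⟩
    ext i j
    have hi : i = 0 := Subsingleton.elim _ _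
    have hj : j = 0 := Subsingleton.elim _ _
    subst hi hj
    simp
  · subst hn
    rcases CRG F S hS w h M hinj hss with hirr | hC
    · left
      have h01 : h 0 ≠ h 1 := fun h' => by simpa using hinj h'
      obtain ⟨-, c₁, hc₁⟩ := IRB F S hS w h M h01 hirr
      obtain ⟨c₂, hc₂⟩ := FD2 F S hS w h M hflt
      obtain ⟨c₃, hc₃⟩ := NF2 F S hS w h M hinj hirr
      refine ⟨hirr, max c₁ (max c₂ c₃), ?_⟩
      intro l _ hl
      have hl1 : c₁ < l := lt_of_le_of_lt (le_max_left _ _) hl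
      have hl2 : c₂ < l := lt_of_le_of_lt (le_trans (le_max_left _ _) (le_max_right _ _)) hl
      have hl3 : c₃ < l := lt_of_le_of_lt (le_trans (le_max_right _ _) (le_max_right _ _)) hl
      refine ⟨hc₁ l hl1, ?_⟩
      intro u hu
      by_contra hne
      push Not at hne
      obtain ⟨B, A, hBA⟩ := (CMT (Gal F) l (AlgebraicClosure (ZMod l))
        (algebraMap (ZMod l) (AlgebraicClosure (ZMod l)))).1 (res (M.ρ l)) u (hc₁ l hl1) hu hne
      exact hc₃ l hl3 (hc₂ l hl2 _ _ B A hBA)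
    · exact Or.inr hC
  · subst hn
    left
    obtain ⟨-, c₁, hc₁⟩ := IR3 F S hS w h M hinj hsym hflt hirr
    obtain ⟨c₂, hc₂⟩ := FD3 F S hS w h M hflt
    obtain ⟨c₃, hc₃⟩ := NFD F S hS w h M hinj hirr
    refine ⟨hirr, max c₁ (max c₂ c₃), ?_⟩
    intro l _ hl
    have hl1 : c₁ < l := lt_of_le_of_lt (le_max_left _ _) hl
    have hl2 : c₂ < l := lt_of_le_of_lt (le_trans (le_max_left _ _) (le_max_right _ _)) hl
    have hl3 : c₃ < l := lt_of_le_of_lt (le_trans (le_max_right _ _) (le_max_right _ _)) hl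
    refine ⟨hc₁ l hl1, ?_⟩
    intro u hu
    by_contra hne
    push Not at hne
    obtain ⟨B₁, A₁, B₂, A₂, Y, h1, h2, h3⟩ := (CMT (Gal F) l (AlgebraicClosure (ZMod l))
      (algebraMap (ZMod l) (AlgebraicClosure (ZMod l)))).2 (res (M.ρ l)) u (hc₁ l hl1) hu hne
    exact hc₃ l hl3 (hc₂ l hl2 _ _ B₁ A₁ B₂ A₂ Y h1 h2 h3)

end REC
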