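import Pool.Agent.Helper85.REC.Stmts10

/-!
CRD: lattices in completely reducible modules (row of part 9 of the REC project, MP_78e9a5).
[helper89]
-/

set_option autoImplicit false

open scoped Classical
open NumberField

namespace REC.C89

open MU

theorem finL_transport {O K V V' X : Type} [CommRing O] [Field K] [Algebra O K]
    [AddCommGroup V] [Module K V] [Module O V] [IsScalarTower O K V]
    [AddCommGroup V'] [Module K V'] [Module O V'] [IsScalarTower O K V']
    (ρ : X → V →ₗ[K] V) (ρ' : X → V' →ₗ[K] V') (e : V ≃ₗ[K] V')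
    (he : ∀ x v, e (ρ x v) = ρ' x (e v)) (h : FinL O ρ) : FinL O ρ' := by
  obtain ⟨T, hT, hT'⟩ := h
  refine ⟨(fun Λ : Submodule O V => Λ.map ((e : V →ₗ[K] V').restrictScalars O)) '' T,
    hT.image _, ?_⟩
  intro Λ' hfg hspan hst
  have hsymm : ∀ x v, e.symm (ρ' x v) = ρ x (e.symm v) := by
    intro x v
    apply e.injective
    rw [e.apply_symm_apply, he, e.apply_symm_apply]
  obtain ⟨f, hf, hfT⟩ := hT' (Λ'.map ((e.symm : V' →ₗ[K] V).restrictScalars O)) (hfg.map _) (by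
    have h1 : ((Λ'.map ((e.symm : V' →ₗ[K] V).restrictScalars O) : Submodule O V) : Set V) =
        (e.symm : V' →ₗ[K] V) '' (Λ' : Set V') := rfl
    rw [h1, Submodule.span_image, hspan, Submodule.map_top, LinearEquiv.range]) (by
    intro x v hv
    obtain ⟨w, hw, rfl⟩ := Submodule.mem_map.1 hv
    refine Submodule.mem_map.2 ⟨ρ' x w, hst x w hw, ?_⟩
    show e.symm (ρ' x w) = ρ x (e.symm w)
    exact hsymm x w)
  refine ⟨(e.symm.trans f).trans e, ?_, ?_⟩
  · intro x v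
    simp only [LinearEquiv.trans_apply]
    rw [hsymm, hf, he]
  · refine ⟨_, hfT, ?_⟩
    ext v
    simp only [Submodule.mem_map, LinearMap.coe_restrictScalars, LinearEquiv.coe_coe,
      LinearEquiv.trans_apply]
    constructor
    · rintro ⟨_, ⟨_, ⟨w, hw, rfl⟩, rfl⟩, rfl⟩
      exact ⟨w, hw, rfl⟩
    · rintro ⟨w, hw, rfl⟩
      exact ⟨_, ⟨_, ⟨w, hw, rfl⟩, rfl⟩, rfl⟩

theorem crd_aux (EXT : ST_EXT) {O K V X : Type} [CommRing O] [IsDomain O] [IsPrincipalIdealRing O]
    [Field K] [Algebra O K] [IsFractionRing O K] [AddCommGroup V] [Module K V] [Module O V]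
    [IsScalarTower O K V] [FiniteDimensional K V]
    (hO : ∀ a : O, a ≠ 0 → Finite (O ⧸ Ideal.span {a})) (ρ : X → V →ₗ[K] V)
    (h1 : ∀ W : Submodule K V, (∀ x, ∀ v ∈ W, ρ x v ∈ W) →
        ∃ W' : Submodule K V, (∀ x, ∀ v ∈ W', ρ x v ∈ W') ∧ IsCompl W W')
    (h2 : ∀ (W : Submodule K V) (hW : ∀ x, ∀ v ∈ W, ρ x v ∈ W),
        (∀ W' : Submodule K V, (∀ x, ∀ v ∈ W', ρ x v ∈ W') → W' ≤ W → W' = ⊥ ∨ W' = W) →
        FinL O (fun x => (ρ x).restrict (hW x))) :
    ∀ (d : ℕ) (W : Submodule K V) (hW : ∀ x, ∀ v ∈ W, ρ x v ∈ W), Module.finrank K W = d →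
      FinL O (fun x => (ρ x).restrict (hW x)) := by
  intro d
  induction d using Nat.strong_induction_on with
  | _ d ih =>
  intro W hW hd
  by_cases hirr : ∀ W' : Submodule K V, (∀ x, ∀ v ∈ W', ρ x v ∈ W') → W' ≤ W → W' = ⊥ ∨ W' = W
  · exact h2 W hW hirr
  · push Not at hirr
    obtain ⟨W₁, hW₁, hle, hbot, hne⟩ := hirr
    obtain ⟨U, hU, hc⟩ := h1 W₁ hW₁
    have hW₂ : ∀ x, ∀ v ∈ U ⊓ W, ρ x v ∈ U ⊓ W := fun x v hv => ⟨hU x v hv.1, hW x v hv.2⟩
    have hdis : Disjoint W₁ (U ⊓ W) := hc.disjoint.mono_right inf_le_left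
    have hsup : W₁ ⊔ (U ⊓ W) = W := by
      rw [← sup_inf_assoc_of_le U hle, hc.sup_eq_top, top_inf_eq]
    have hlt₁ : Module.finrank K W₁ < d := by
      rw [← hd]
      exact Submodule.finrank_lt_finrank_of_lt (lt_of_le_of_ne hle hne)
    have hadd : Module.finrank K W₁ + Module.finrank K (U ⊓ W : Submodule K V) = d := by
      rw [← hd, ← Submodule.finrank_sup_add_finrank_inf_eq, hsup, hdis.eq_bot, finrank_bot, add_zero]
    have hpos : 0 < Module.finrank K W₁ := by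
      rw [Nat.pos_iff_ne_zero]
      intro h0
      exact hbot (Submodule.finrank_eq_zero.1 h0)
    have hlt₂ : Module.finrank K (U ⊓ W : Submodule K V) < d := by omega
    have hE := EXT O K W₁ (U ⊓ W : Submodule K V) X hO _ _ (ih _ hlt₁ W₁ hW₁ rfl)
      (ih _ hlt₂ (U ⊓ W) hW₂ rfl)
    let φ : (W₁ × (U ⊓ W : Submodule K V)) →ₗ[K] W :=
      (Submodule.inclusion hle).coprod (Submodule.inclusion inf_le_right)
    have hφ : Function.Bijective φ := by
      constructor
      · rw [← LinearMap.ker_eq_bot, LinearMap.ker_eq_bot']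
        rintro ⟨a, b⟩ hab
        have h3 : (a : V) + (b : V) = 0 := by
          have := congrArg (Subtype.val) hab
          simpa [φ] using this
        have h4 : (a : V) = -(b : V) := eq_neg_of_add_eq_zero_left h3
        have h5 : (a : V) ∈ U ⊓ W := by rw [h4]; exact neg_mem b.2
        have h6 : (a : V) = 0 := Submodule.disjoint_def.1 hdis _ a.2 h5
        have h7 : (b : V) = 0 := by rw [h6, zero_add] at h3; exact h3
        exact Prod.ext (Subtype.ext h6) (Subtype.ext h7)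
      · rintro ⟨w, hw⟩
        have hw' : w ∈ W₁ ⊔ (U ⊓ W) := by rw [hsup]; exact hw
        obtain ⟨a, ha, b, hb, hab⟩ := Submodule.mem_sup.1 hw'
        refine ⟨(⟨a, ha⟩, ⟨b, hb⟩), Subtype.ext ?_⟩
        simpa [φ] using hab
    refine finL_transport _ _ (LinearEquiv.ofBijective φ hφ) ?_ hE
    rintro x ⟨a, b⟩
    apply Subtype.ext
    simp [φ]

theorem st_CRD (EXT : ST_EXT) : ST_CRD := by
  intro O K V X _ _ _ _ _ _ _ _ _ _ _ hO ρ h1 h2
  have hT : ∀ x, ∀ v ∈ (⊤ : Submodule K V), ρ x v ∈ (⊤ : Submodule K V) :=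
    fun _ _ _ => Submodule.mem_top
  have h3 := crd_aux EXT hO ρ h1 h2 _ ⊤ hT rfl
  exact finL_transport _ _ (Submodule.topEquiv) (fun x v => rfl) h3

end REC.C89
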