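import Pool.Agent.Helper85.REC.Stmts6

/-!
# The relation modulo `l ^ k` between the character of a stable line and the polynomial of Frobenius
-/

set_option autoImplicit false

open scoped Classical
open NumberField Polynomial

namespace Pool.Agent.Helper89.REC

open Pool.Agent.Helper13.ZL (Pl q)
open MU _root_.REC

variable {F : Type} [Field F] [NumberField F] {S : Finset ℕ} {n w : ℕ} {h : Fin n → ℕ}

/-- there is a prime over `l` -/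
theorem exists_prime_over (L : Type) [Field L] [NumberField L] (l : ℕ) [Fact l.Prime] :
    ∃ 𝔩 : Ideal (𝓞 L), 𝔩.IsPrime ∧ (l : 𝓞 L) ∈ 𝔩 := by
  have hp : Prime (l : ℤ) := Nat.prime_iff_prime_int.mp (Fact.out : l.Prime)
  have h1 : (Ideal.span {(l : ℤ)}).IsPrime := (Ideal.span_singleton_prime hp.ne_zero).mpr hp
  have h2 : (Ideal.span {(l : ℤ)}).IsMaximal := by
    refine Ring.DimensionLEOne.maximalOfPrime ?_ h1
    rw [Ne, Ideal.span_singleton_eq_bot]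
    exact hp.ne_zero
  obtain ⟨P, hP, hover⟩ := Ideal.exists_maximal_ideal_liesOver_of_isIntegral (S := 𝓞 L)
    (Ideal.span {(l : ℤ)})
  refine ⟨P, hP.isPrime, ?_⟩
  have h3 : (l : ℤ) ∈ P.under ℤ := by
    rw [← hover.over]
    exact Ideal.mem_span_singleton_self _
  rw [Ideal.under_def, Ideal.mem_comap] at h3
  simpa using h3

theorem ne_bot_of_nat_mem {K : Type} [Field K] [NumberField K] (l : ℕ) [Fact l.Prime]
    (I : Ideal (𝓞 K)) (hl : (l : 𝓞 K) ∈ I) : I ≠ ⊥ := by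
  rintro rfl
  rw [Ideal.mem_bot] at hl
  exact (Fact.out : l.Prime).ne_zero (by exact_mod_cast hl)

/-- the places of `F` induced by the embeddings and the prime `𝔩` -/
theorem exists_pl (L : Type) [Field L] [NumberField L] (l : ℕ) [Fact l.Prime] (𝔩 : Ideal (𝓞 L))
    (h𝔩 : 𝔩.IsPrime) (hl : (l : 𝓞 L) ∈ 𝔩) :
    ∃ pl : (F →+* L) → Pl F, IsPlOf 𝔩 pl ∧ ∀ τ, (l : 𝓞 F) ∈ (pl τ).asIdeal := by
  have h1 : ∀ τ : F →+* L, (l : 𝓞 F) ∈ 𝔩.comap (RingOfIntegers.mapRingHom τ) := by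
    intro τ
    rw [Ideal.mem_comap, map_natCast]
    exact hl
  refine ⟨fun τ => ⟨𝔩.comap (RingOfIntegers.mapRingHom τ), Ideal.IsPrime.comap _,
    ne_bot_of_nat_mem l _ (h1 τ)⟩, fun τ x => ?_, fun τ => h1 τ⟩
  exact Iff.rfl

theorem ev_pow {A : Type} [CommMonoid A] (hEV : ST_EV) (φ : Pl F → A) (v : Pl F) (m : ℕ) :
    ev φ (v.asIdeal ^ m) = φ v ^ m := by
  obtain ⟨h1, h2, h3, -⟩ := hEV F A
  induction m with
  | zero => rw [pow_zero, pow_zero, Ideal.one_eq_top, h1]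
  | succ m ih => rw [pow_succ, pow_succ, h2 φ _ _ (pow_ne_zero m v.ne_bot) v.ne_bot, ih, h3]

/-- a place which contains a power of `v` is `v` -/
theorem pl_eq_of_pow_le (v w' : Pl F) (m : ℕ) (hvw : v.asIdeal ^ m ≤ w'.asIdeal) : v = w' := by
  have h1 : v.asIdeal ≤ w'.asIdeal := Ideal.IsPrime.le_of_pow_le hvw
  have h2 : v.asIdeal = w'.asIdeal :=
    (v.isMaximal).eq_of_le w'.isPrime.ne_top h1
  exact IsDedekindDomain.HeightOneSpectrum.ext h2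

/-- The relation modulo `l ^ k`. -/
theorem rel_core (hLARK : ST_LARK) (hEV : ST_EV) {L : Type} [Field L] [NumberField L]
    [IsGalois ℚ L] [Nonempty (F →+* L)] (M : Mot F S n w h) (l : ℕ) [Fact l.Prime] (k : ℕ)
    (hk : 0 < k) (ε : Gal F →* (ZMod (l ^ k))ˣ) (e₀ : Pl F → ℕ) (hcon : Con M l k ε e₀)
    (𝔩 : Ideal (𝓞 L)) (h𝔩 : 𝔩.IsPrime) (hl : (l : 𝓞 L) ∈ 𝔩) (pl : (F →+* L) → Pl F)
    (hpl : IsPlOf 𝔩 pl) (v : Pl F) (p : ℕ) (𝔓 : Ideal (Zb F)) (j m : ℕ) (σ : Gal F) (x : 𝓞 F)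
    (P : ℤ[X]) (hp : p.Prime) (hpl' : p ≠ l) (hpv : (p : 𝓞 F) ∈ v.asIdeal) (h𝔓 : OverP v 𝔓)
    (hσ : CongPow 𝔓 (q v ^ j) σ) (hx : TotPos (x : F)) (hxv : Ideal.span {x} = v.asIdeal ^ m)
    (hP : (((M.ρ l (σ ^ m))⁻¹ : Matrix.GeneralLinearGroup (Fin n) ℤ_[l]) :
          Matrix (Fin n) (Fin n) ℤ_[l]).charpoly = P.map (Int.castRingHom ℤ_[l])) :
    aeval (∏ τ : F →+* L, RingOfIntegers.mapRingHom τ x ^ (e₀ (pl τ) * j) : 𝓞 L) P ∈ 𝔩 ^ k := by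
  obtain ⟨⟨Bl, φ, hcy, -⟩, hdet⟩ := hcon
  have hx0 : x ≠ 0 := by
    rintro rfl
    have h1 : v.asIdeal ^ m = ⊥ := by rw [← hxv]; simp
    exact pow_ne_zero m v.ne_bot h1
  have hvB : v ∉ Bl := by
    intro hv
    have h1 : (l : 𝓞 F) ∈ v.asIdeal := (hcy.pl v).mp hv
    have h2 : IsCoprime (p : ℤ) (l : ℤ) :=
      Nat.isCoprime_iff_coprime.mpr ((Nat.coprime_primes hp (Fact.out : l.Prime)).mpr hpl')
    obtain ⟨a, b, hab⟩ := h2
    have h3 : (1 : 𝓞 F) ∈ v.asIdeal := by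
      have h4 : ((a * p + b * l : ℤ) : 𝓞 F) = 1 := by rw [hab]; simp
      rw [← h4]
      push_cast
      exact Ideal.add_mem _ (Ideal.mul_mem_left _ _ hpv) (Ideal.mul_mem_left _ _ h1)
    exact v.isPrime.ne_top ((Ideal.eq_top_iff_one _).mpr h3)
  have hxB : ∀ w' ∈ Bl, x ∉ w'.asIdeal := by
    intro w' hw' hxw
    have h1 : v.asIdeal ^ m ≤ w'.asIdeal := by
      rw [← hxv, Ideal.span_singleton_le_iff_mem]
      exact hxw
    exact hvB ((pl_eq_of_pow_le v w' m h1) ▸ hw')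
  set β : 𝓞 L := ∏ τ : F →+* L, RingOfIntegers.mapRingHom τ x ^ e₀ (pl τ) with hβ
  have hβj : (∏ τ : F →+* L, RingOfIntegers.mapRingHom τ x ^ (e₀ (pl τ) * j) : 𝓞 L) = β ^ j := by
    rw [hβ, ← Finset.prod_pow]
    exact Finset.prod_congr rfl fun τ _ => pow_mul _ _ _
  rw [hβj]
  -- the integers
  have hlk : l ^ k ≠ 0 := pow_ne_zero k (Fact.out : l.Prime).ne_zero
  have : NeZero (l ^ k) := ⟨hlk⟩
  have hlift : ∀ a : ZMod (l ^ k), ∃ t : ℤ, (t : ZMod (l ^ k)) = a := fun a =>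
    ⟨(a.val : ℤ), by simp⟩
  obtain ⟨t, ht⟩ := hlift ((ev φ (Ideal.span {x}) : (ZMod (l ^ k))ˣ) : ZMod (l ^ k))
  have h1 := hLARK F L l k hk ε e₀ Bl φ hcy 𝔩 h𝔩 hl pl hpl x hx0 hx hxB t ht
  rw [← hβ] at h1
  set u : (ZMod (l ^ k))ˣ := ε (σ ^ m) with hu
  have htj : ((t ^ j : ℤ) : ZMod (l ^ k)) = (u : ZMod (l ^ k)) := by
    rw [hxv, ev_pow hEV] at ht
    have h2 := hcy.phi.2 v hvB 𝔓 h𝔓 j σ hσ
    rw [Int.cast_pow, ht, hu, map_pow, h2]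
    push_cast
    rw [← pow_mul, ← pow_mul, mul_comm]
  obtain ⟨t', ht'⟩ := hlift ((u⁻¹ : (ZMod (l ^ k))ˣ) : ZMod (l ^ k))
  -- `P (t') = 0` modulo `l ^ k`
  have hPt : ((P.eval t' : ℤ) : ZMod (l ^ k)) = 0 := by
    set r : Matrix.GeneralLinearGroup (Fin n) (ZMod (l ^ k)) :=
      Matrix.GeneralLinearGroup.map (PadicInt.toZModPow k) (M.ρ l (σ ^ m)) with hr
    have hrv : (r : Matrix (Fin n) (Fin n) (ZMod (l ^ k))) =
        ((M.ρ l (σ ^ m) : Matrix.GeneralLinearGroup (Fin n) ℤ_[l]) :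
          Matrix (Fin n) (Fin n) ℤ_[l]).map (PadicInt.toZModPow k) := rfl
    have hri : ((r⁻¹ : Matrix.GeneralLinearGroup (Fin n) (ZMod (l ^ k))) :
        Matrix (Fin n) (Fin n) (ZMod (l ^ k))) =
        (((M.ρ l (σ ^ m))⁻¹ : Matrix.GeneralLinearGroup (Fin n) ℤ_[l]) :
          Matrix (Fin n) (Fin n) ℤ_[l]).map (PadicInt.toZModPow k) := by
      rw [hr, ← map_inv]
      rfl
    have hd := hdet (σ ^ m)
    rw [← hrv, ← hu] at hd
    have hc : ((r⁻¹ : Matrix.GeneralLinearGroup (Fin n) (ZMod (l ^ k))) :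
        Matrix (Fin n) (Fin n) (ZMod (l ^ k))).charpoly = P.map (Int.castRingHom (ZMod (l ^ k))) := by
      rw [hri, Matrix.charpoly_map, hP, Polynomial.map_map]
      congr 1
      exact RingHom.ext_int _ _
    have he : ((P.eval t' : ℤ) : ZMod (l ^ k)) =
        (P.map (Int.castRingHom (ZMod (l ^ k)))).eval (t' : ZMod (l ^ k)) := by
      rw [Polynomial.eval_intCast_map]
      simp
    rw [he, ← hc, Matrix.eval_charpoly, ht']
    have hm : (Matrix.scalar (Fin n)) ((u⁻¹ : (ZMod (l ^ k))ˣ) : ZMod (l ^ k)) -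
        ((r⁻¹ : Matrix.GeneralLinearGroup (Fin n) (ZMod (l ^ k))) :
          Matrix (Fin n) (Fin n) (ZMod (l ^ k))) =
        ((u⁻¹ : (ZMod (l ^ k))ˣ) : ZMod (l ^ k)) •
          (((r⁻¹ : Matrix.GeneralLinearGroup (Fin n) (ZMod (l ^ k))) :
            Matrix (Fin n) (Fin n) (ZMod (l ^ k))) *
            ((r : Matrix (Fin n) (Fin n) (ZMod (l ^ k))) -
              ((u : (ZMod (l ^ k))ˣ) : ZMod (l ^ k)) • 1)) := by
      rw [Matrix.mul_sub, Units.inv_mul, Matrix.mul_smul, Matrix.mul_one, smul_sub, smul_smul,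
        Units.inv_mul, one_smul, Matrix.scalar_apply, Matrix.smul_one_eq_diagonal]
    rw [hm, Matrix.det_smul, Matrix.det_mul, hd, mul_zero, mul_zero]
  -- conclusion
  have hlk𝔩 : ((l : 𝓞 L)) ^ k ∈ 𝔩 ^ k := Ideal.pow_mem_pow hl k
  have hcast : ∀ a : ℤ, (a : ZMod (l ^ k)) = 0 → ((a : ℤ) : 𝓞 L) ∈ 𝔩 ^ k := by
    intro a ha
    rw [ZMod.intCast_zmod_eq_zero_iff_dvd] at ha
    obtain ⟨b, rfl⟩ := ha
    push_cast
    exact Ideal.mul_mem_right _ _ hlk𝔩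
  have h3 : ((t' * t ^ j - 1 : ℤ) : 𝓞 L) ∈ 𝔩 ^ k := by
    refine hcast _ ?_
    rw [Int.cast_sub, Int.cast_mul, htj, ht', Units.inv_mul]
    simp
  have h4 : (((t : ℤ) : 𝓞 L) * β) ^ j - 1 ∈ 𝔩 ^ k := by
    have h5 : ((t : ℤ) : 𝓞 L) * β - 1 ∣ (((t : ℤ) : 𝓞 L) * β) ^ j - 1 ^ j :=
      sub_dvd_pow_sub_pow _ _ j
    rw [one_pow] at h5
    obtain ⟨b, hb⟩ := h5
    rw [hb]
    exact Ideal.mul_mem_right _ _ h1
  have h6 : β ^ j - ((t' : ℤ) : 𝓞 L) ∈ 𝔩 ^ k := by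
    have h7 : β ^ j - ((t' : ℤ) : 𝓞 L) =
        ((t' : ℤ) : 𝓞 L) * ((((t : ℤ) : 𝓞 L) * β) ^ j - 1) -
          β ^ j * ((t' * t ^ j - 1 : ℤ) : 𝓞 L) := by
      push_cast
      ring
    rw [h7]
    exact Ideal.sub_mem _ (Ideal.mul_mem_left _ _ h4) (Ideal.mul_mem_left _ _ h3)
  have h8 : aeval (β ^ j) P - aeval (((t' : ℤ) : 𝓞 L)) P ∈ 𝔩 ^ k := by
    have h9 : β ^ j - ((t' : ℤ) : 𝓞 L) ∣ aeval (β ^ j) P - aeval (((t' : ℤ) : 𝓞 L)) P := by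
      rw [aeval_def, aeval_def, ← eval_map, ← eval_map]
      exact Polynomial.sub_dvd_eval_sub _ _ _
    obtain ⟨b, hb⟩ := h9
    rw [hb]
    exact Ideal.mul_mem_right _ _ h6
  have h10 : aeval (((t' : ℤ) : 𝓞 L)) P = ((P.eval t' : ℤ) : 𝓞 L) := by
    have : (((t' : ℤ) : 𝓞 L)) = algebraMap ℤ (𝓞 L) t' := by simp
    rw [this, Polynomial.aeval_algebraMap_apply]
    simp
  rw [h10] at h8
  have h11 := Ideal.add_mem _ h8 (hcast _ hPt)
  rwa [sub_add_cancel] at h11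

end Pool.Agent.Helper89.REC
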