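import Pool.Agent.Helper57.REC.StmtsX

/-!
# REC.ST_XPF: potentially abelian families
Adapted from `Pool.Agent.Helper72.REC.PPB` (pairs of potentially abelian motives).
-/

set_option autoImplicit false

open Polynomial

namespace REC

open MU

namespace C89X

theorem index_ne_zero' {F : Type} [Field F] [NumberField F] {Y : Subgroup (Gal F)}
    (hY : IsOpen (Y : Set (Gal F))) : Y.index ≠ 0 := by
  have h1 : Finite (Gal F ⧸ Y) := Subgroup.quotient_finite_of_isOpen Y hY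
  have h2 : Y.FiniteIndex := Subgroup.finiteIndex_of_finite_quotient
  exact h2.index_ne_zero

/-- the statement on an open subgroup -/
theorem core (hPBR : ST_PBR) (hETL : ST_ETL) {F : Type} [Field F] [NumberField F] {S : Finset ℕ}
    {n : ℕ} (ρ : ∀ (l : ℕ) [Fact l.Prime], Gal F →* Matrix.GeneralLinearGroup (Fin n) ℤ_[l])
    (hfam : IsFam S ρ) (hss : ∀ (l : ℕ) [Fact l.Prime], IsSS (rat (ρ l)))
    (H : Subgroup (Gal F)) (hH : IsOpen (H : Set (Gal F)))
    (hc : ∀ (l : ℕ) [Fact l.Prime], ∀ g ∈ H, ∀ g' ∈ H, ρ l g * ρ l g' = ρ l g' * ρ l g) :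
    ∃ (U : Subgroup (Gal F)) (c : ℕ), IsOpen (U : Set (Gal F)) ∧
      ∀ (l : ℕ) [Fact l.Prime], c < l → IsSS ((res (ρ l)).comp U.subtype) ∧
        ∀ u : Matrix (Fin n) (Fin n) (ZMod l), (∀ a : U, u * res (ρ l) a = res (ρ l) a * u) →
          ∃ x : Matrix (Fin n) (Fin n) ℤ_[l], x.map (PadicInt.toZMod (p := l)) = u ∧
            ∀ a : U, x * (ρ l a : Matrix (Fin n) (Fin n) ℤ_[l]) =
              (ρ l a : Matrix (Fin n) (Fin n) ℤ_[l]) * x := by
  obtain ⟨U, s, R, c₁, hUn, hUo, hUH, hsU, hR, hRs, hU⟩ := hPBR F S n ρ hfam hss H hH hc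
  obtain ⟨c₂, hc₂⟩ := hETL R hR hRs
  refine ⟨U, max c₁ c₂, hUo, fun l _ hl => ?_⟩
  obtain ⟨hR0, hcm⟩ := hU l ((le_max_left _ _).trans_lt hl)
  have hl2 := (le_max_right c₁ c₂).trans_lt hl
  constructor
  · intro k B A hBA
    obtain ⟨hC, hB⟩ := hBA
    have hBs := hB ⟨s, hsU⟩
    obtain ⟨D, hD1, hD2⟩ := (hc₂ l hl2 n n _ _ hR0 hR0).2 k B (A ⟨s, hsU⟩) hC hBs
    refine ⟨D, hD1, ?_⟩
    have hcomm : B * D * res (ρ l) s = res (ρ l) s * (B * D) := by
      have e1 : res (ρ l) s * B = B * A ⟨s, hsU⟩ := hBs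
      have e2 : D * res (ρ l) s = A ⟨s, hsU⟩ * D := hD2
      rw [Matrix.mul_assoc, e2, ← Matrix.mul_assoc, ← Matrix.mul_assoc, e1]
    obtain ⟨x, hx1, hx2⟩ := (hc₂ l hl2 n n _ _ hR0 hR0).1 (B * D) hcomm
    intro g
    have h3 := hcm x hx2 g.1 g.2
    have h4 := congrArg (fun X : Matrix (Fin n) (Fin n) ℤ_[l] => X.map
      (PadicInt.toZMod (p := l))) h3
    simp only [Matrix.map_mul] at h4
    rw [hx1] at h4
    have h5 : B * D * res (ρ l) g.1 = res (ρ l) g.1 * (B * D) := h4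
    have h6 : res (ρ l) g.1 * B = B * A g := hB g
    change D * res (ρ l) g.1 = A g * D
    calc D * res (ρ l) g.1 = D * B * D * res (ρ l) g.1 := by rw [hD1, Matrix.one_mul]
      _ = D * (B * D * res (ρ l) g.1) := by simp only [Matrix.mul_assoc]
      _ = D * (res (ρ l) g.1 * B * D) := by rw [h5, Matrix.mul_assoc]
      _ = D * B * (A g * D) := by rw [h6]; simp only [Matrix.mul_assoc]
      _ = A g * D := by rw [hD1, Matrix.one_mul]
  · intro u hu
    obtain ⟨x, hx1, hx2⟩ := (hc₂ l hl2 n n _ _ hR0 hR0).1 u (hu ⟨s, hsU⟩)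
    exact ⟨x, hx1, fun a => hcm x hx2 a.1 a.2⟩

end C89X

open C89X

theorem st_XPF : ST_PBR → ST_ETL → ST_AVS → ST_AVL → ST_XPF := by
  intro hPBR hETL hAVS hAVL F _ _ S n ρ hfam hss H hH hcH
  obtain ⟨U, c, hU, hc⟩ := core hPBR hETL ρ hfam hss H hH hcH
  have hi := index_ne_zero' hU
  have hr : U.subtype.range = U := U.range_subtype
  have hdv : ∀ (l : ℕ) [Fact l.Prime], U.index < l → ¬ l ∣ U.subtype.range.index := by
    intro l _ hl hd
    rw [hr] at hd
    have := Nat.le_of_dvd (Nat.pos_of_ne_zero hi) hd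
    omega
  refine ⟨max c U.index, fun l _ hl => ⟨?_, fun u hu => ?_⟩⟩
  · refine hAVS (Gal F) U (ZMod l) U.subtype n (res (ρ l)) ?_
      (hc l ((le_max_left _ _).trans_lt hl)).1
    rw [Ne, ZMod.natCast_eq_zero_iff]
    exact hdv l ((le_max_right _ _).trans_lt hl)
  · exact hAVL (Gal F) U U.subtype n n l (ρ l) (ρ l) (hdv l ((le_max_right _ _).trans_lt hl))
      (hc l ((le_max_left _ _).trans_lt hl)).2 u hu

end REC
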